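import Mathlib

open Filter Topology

namespace Q71.RH

variable {E F : Type*} [NormedAddCommGroup E] [InnerProductSpace ℂ E]
  [NormedAddCommGroup F] [InnerProductSpace ℂ F]

lemma parseval {ι : Type*} (e : HilbertBasis ι ℂ E) (x : E) :
    ∑' i, ENNReal.ofReal (‖(inner ℂ (e i) x : ℂ)‖ ^ 2) = ENNReal.ofReal (‖x‖ ^ 2) := by
  have h1 := e.hasSum_inner_mul_inner x x
  have h2 : HasSum (fun i => ‖(inner ℂ (e i) x : ℂ)‖ ^ 2) (‖x‖ ^ 2) := by
    have h3 := Complex.hasSum_re h1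
    have h4 : (inner ℂ x x : ℂ).re = ‖x‖ ^ 2 := by
      rw [inner_self_eq_norm_sq_to_K]
      norm_cast
    rw [h4] at h3
    have h5 : ∀ i, ((inner ℂ x (e i) : ℂ) * inner ℂ (e i) x).re = ‖(inner ℂ (e i) x : ℂ)‖ ^ 2 := by
      intro i
      rw [← inner_conj_symm x (e i), mul_comm, Complex.mul_conj, Complex.ofReal_re,
        Complex.normSq_eq_norm_sq]
    simpa only [h5] using h3
  rw [← h2.tsum_eq, ENNReal.ofReal_tsum_of_nonneg (fun _ => by positivity) h2.summable]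

lemma bessel {κ : Type*} {v : κ → E} (hv : Orthonormal ℂ v) (x : E) :
    ∑' i, ENNReal.ofReal (‖(inner ℂ (v i) x : ℂ)‖ ^ 2) ≤ ENNReal.ofReal (‖x‖ ^ 2) := by
  rw [← ENNReal.ofReal_tsum_of_nonneg (fun _ => by positivity) (hv.inner_products_summable x)]
  exact ENNReal.ofReal_le_ofReal (hv.tsum_inner_products_le x)

/-- Orthonormal systems give at most the Hilbert-Schmidt sum of an orthonormal basis. -/
theorem hs_le {ι κ : Type*} [CompleteSpace F] (e : HilbertBasis ι ℂ E) (K : E →L[ℂ] F)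
    {v : κ → E} (hv : Orthonormal ℂ v) :
    ∑' k, ENNReal.ofReal (‖K (v k)‖ ^ 2) ≤ ∑' i, ENNReal.ofReal (‖K (e i)‖ ^ 2) := by
  have hE : CompleteSpace E :=
    (completeSpace_congr (e := e.repr.toLinearEquiv.toEquiv)
      e.repr.isometry.isUniformEmbedding).mpr inferInstance
  obtain ⟨w, b, _⟩ := exists_hilbertBasis ℂ F
  have h1 : ∀ x : E, ENNReal.ofReal (‖K x‖ ^ 2) =
      ∑' j, ENNReal.ofReal (‖(inner ℂ (ContinuousLinearMap.adjoint K (b j)) x : ℂ)‖ ^ 2) := by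
    intro x
    rw [← parseval b (K x)]
    apply tsum_congr
    intro j
    rw [ContinuousLinearMap.adjoint_inner_left]
  simp only [h1]
  rw [ENNReal.tsum_comm, ENNReal.tsum_comm (β := w)]
  apply ENNReal.tsum_le_tsum
  intro j
  have h2 : ∀ (y x : E), ‖(inner ℂ y x : ℂ)‖ = ‖(inner ℂ x y : ℂ)‖ := fun y x => norm_inner_symm y x
  simp only [h2 (ContinuousLinearMap.adjoint K (b j))]
  rw [parseval e]
  exact bessel hv _

end Q71.RH
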