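import Mathlib

/-!
# Reinhardt domains, Bergman spaces and Hankel operators with conjugate holomorphic symbols

Points of `ℂⁿ` are functions `Fin n → ℂ`, and `ℂⁿ` carries Lebesgue measure `volume`.
-/

open MeasureTheory

namespace Q71.RH

/-- `Ω ⊆ ℂⁿ` is invariant under `(z₁, …, zₙ) ↦ (e^{iθ₁} z₁, …, e^{iθₙ} zₙ)` for all real `θⱼ`. -/
def IsReinhardt {n : ℕ} (Ω : Set (Fin n → ℂ)) : Prop :=
  ∀ z ∈ Ω, ∀ θ : Fin n → ℝ, (fun j => Complex.exp ((θ j : ℂ) * Complex.I) * z j) ∈ Ω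

/-- The Hilbert space `L²(Ω)`. -/
noncomputable abbrev L2 {n : ℕ} (Ω : Set (Fin n → ℂ)) := Lp ℂ 2 (volume.restrict Ω)

/-- The class `u` in `L²(Ω)` contains a function holomorphic on `Ω`. -/
def IsHolo {n : ℕ} {Ω : Set (Fin n → ℂ)} (u : L2 Ω) : Prop :=
  ∃ g : (Fin n → ℂ) → ℂ, DifferentiableOn ℂ g Ω ∧ u =ᵐ[volume.restrict Ω] g

theorem IsHolo.add {n : ℕ} {Ω : Set (Fin n → ℂ)} {u v : L2 Ω} (hu : IsHolo u) (hv : IsHolo v) :
    IsHolo (u + v) := by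
  obtain ⟨g, hg, hu⟩ := hu
  obtain ⟨h, hh, hv⟩ := hv
  exact ⟨g + h, hg.add hh, (Lp.coeFn_add u v).trans (hu.add hv)⟩

theorem IsHolo.zero {n : ℕ} {Ω : Set (Fin n → ℂ)} : IsHolo (0 : L2 Ω) :=
  ⟨0, differentiableOn_const 0, Lp.coeFn_zero _ _ _⟩

theorem IsHolo.smul {n : ℕ} {Ω : Set (Fin n → ℂ)} (c : ℂ) {u : L2 Ω} (hu : IsHolo u) :
    IsHolo (c • u) := by
  obtain ⟨g, hg, hu⟩ := hu
  exact ⟨c • g, hg.const_smul c, (Lp.coeFn_smul c u).trans (hu.const_smul c)⟩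

/-- The Bergman space `A²(Ω)`: the classes in `L²(Ω)` of functions holomorphic on `Ω`. -/
noncomputable def bergman {n : ℕ} (Ω : Set (Fin n → ℂ)) : Submodule ℂ (L2 Ω) where
  carrier := {u | IsHolo u}
  add_mem' := IsHolo.add
  zero_mem' := IsHolo.zero
  smul_mem' := IsHolo.smul

/-- The domain of the Hankel operator `H_{\bar f}`: all `g ∈ A²(Ω)` with `\bar f g ∈ L²(Ω)`. -/
def hankelDomain {n : ℕ} (Ω : Set (Fin n → ℂ)) (f : (Fin n → ℂ) → ℂ) : Set (bergman Ω) :=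
  {g | MemLp (fun z => (starRingEnd ℂ) (f z) * (g : L2 Ω) z) 2 (volume.restrict Ω)}

/-- `w = H_{\bar f} g = (I - P)(\bar f g)`: the function `\bar f g` is in `L²(Ω)` (with class `u`),
`w` is orthogonal to `A²(Ω)` and `u - w` lies in `A²(Ω)`. -/
def IsHankelValue {n : ℕ} {Ω : Set (Fin n → ℂ)} (f : (Fin n → ℂ) → ℂ) (g : bergman Ω)
    (w : L2 Ω) : Prop :=
  ∃ u : L2 Ω, (u =ᵐ[volume.restrict Ω] fun z => (starRingEnd ℂ) (f z) * (g : L2 Ω) z) ∧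
    u - w ∈ bergman Ω ∧ w ∈ (bergman Ω)ᗮ

/-- The Hankel operator `H_{\bar f}` is Hilbert-Schmidt, with extension `K : A²(Ω) → L²(Ω)`:
its domain is dense in `A²(Ω)`, the bounded operator `K` agrees with `H_{\bar f}` on the domain, and
`∑ ‖K eᵢ‖² < ∞` for some orthonormal (Hilbert) basis `(eᵢ)` of `A²(Ω)`. -/
structure IsHilbertSchmidtHankel {n : ℕ} (Ω : Set (Fin n → ℂ)) (f : (Fin n → ℂ) → ℂ)
    (K : bergman Ω →L[ℂ] L2 Ω) : Prop where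
  dense_domain : Dense (hankelDomain Ω f)
  value : ∀ g ∈ hankelDomain Ω f, IsHankelValue f g (K g)
  summable : ∃ (ι : Type) (e : HilbertBasis ι ℂ (bergman Ω)), Summable fun i => ‖K (e i)‖ ^ 2

end Q71.RH
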