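import Mathlib

open MeasureTheory Set Filter Topology Complex

namespace Q71.RH

/-- normalised measure on the circle -/
noncomputable local instance : MeasureSpace UnitAddCircle := ⟨AddCircle.haarAddCircle⟩

local instance : Measure.IsAddHaarMeasure (volume : Measure UnitAddCircle) :=
  inferInstanceAs (Measure.IsAddHaarMeasure AddCircle.haarAddCircle)

local instance : IsProbabilityMeasure (volume : Measure UnitAddCircle) :=
  inferInstanceAs (IsProbabilityMeasure AddCircle.haarAddCircle)

/-- circle integral as a real integral -/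
lemma av_eq (k : ℂ → ℂ) {r : ℝ} (hr : 0 < r) :
    ∫ s : UnitAddCircle, k (fourier 1 s * (r : ℂ)) =
      (2 * Real.pi * I : ℂ)⁻¹ * ∮ z in C(0, r), (z - 0)⁻¹ • k z := by
  have h1 : ∫ s : UnitAddCircle, k (fourier 1 s * (r : ℂ)) =
      fourierCoeff (T := 1) (fun s : UnitAddCircle => k (fourier 1 s * (r : ℂ))) 0 := by
    unfold fourierCoeff
    simp only [neg_zero, fourier_zero, one_smul]
    rfl
  rw [h1, fourierCoeff_eq_intervalIntegral _ 0 0]
  simp only [neg_zero, fourier_zero, one_smul, zero_add, div_one]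
  unfold circleIntegral
  have h2 : ∫ θ in (0 : ℝ)..2 * Real.pi, deriv (circleMap 0 r) θ • (circleMap 0 r θ - 0)⁻¹ • k (circleMap 0 r θ)
      = ∫ θ in (0 : ℝ)..2 * Real.pi, I * k (circleMap 0 r θ) := by
    congr 1
    ext θ
    have h3 : circleMap 0 r θ ≠ 0 := circleMap_ne_center hr.ne'
    rw [deriv_circleMap, sub_zero]
    simp only [smul_eq_mul]
    field_simp
  rw [h2]
  have h4 := intervalIntegral.integral_comp_mul_left (a := 0) (b := 1)
    (fun θ : ℝ => I * k (circleMap 0 r θ)) (c := 2 * Real.pi) (by positivity)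
  rw [mul_zero, mul_one] at h4
  have h5 : ∫ θ in (0 : ℝ)..2 * Real.pi, I * k (circleMap 0 r θ) =
      (2 * Real.pi : ℝ) • ∫ x in (0 : ℝ)..1, I * k (circleMap 0 r (2 * Real.pi * x)) := by
    rw [h4, smul_smul, mul_inv_cancel₀ (by positivity), one_smul]
  rw [h5, intervalIntegral.integral_const_mul, Complex.real_smul]
  have h6 : ∀ x : ℝ, k (circleMap 0 r (2 * Real.pi * x)) = k (fourier 1 (x : UnitAddCircle) * (r : ℂ)) := by
    intro x
    congr 1
    rw [circleMap, fourier_coe_apply]
    push_cast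
    rw [zero_add, mul_comm]
    congr 2
    ring
  simp only [h6]
  have h7 : (2 * Real.pi * I : ℂ) ≠ 0 := by
    have : (Real.pi : ℂ) ≠ 0 := by exact_mod_cast Real.pi_ne_zero
    simp [this]
  generalize (∫ x in (0 : ℝ)..1, k (fourier 1 (x : UnitAddCircle) * (r : ℂ))) = Y
  push_cast
  field_simp

lemma av_const {k : ℂ → ℂ} {a b : ℝ} (ha : 0 < a) (hab : a ≤ b)
    (hk : ∀ z : ℂ, a ≤ ‖z‖ → ‖z‖ ≤ b → DifferentiableAt ℂ k z) :
    ∫ s : UnitAddCircle, k (fourier 1 s * (b : ℂ)) = ∫ s : UnitAddCircle, k (fourier 1 s * (a : ℂ)) := by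
  rw [av_eq k ha, av_eq k (ha.trans_le hab)]
  congr 1
  apply Complex.circleIntegral_sub_center_inv_smul_eq_of_differentiable_on_annulus_off_countable ha
    hab countable_empty
  · intro z hz
    simp only [Set.mem_sdiff, Metric.mem_closedBall, dist_zero_right, Metric.mem_ball, not_lt] at hz
    exact (hk z hz.2 hz.1).continuousAt.continuousWithinAt
  · intro z hz
    simp only [Set.mem_sdiff, Metric.mem_closedBall, dist_zero_right, Metric.mem_ball, not_le,
      mem_empty_iff_false, not_false_eq_true, and_true] at hz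
    exact hk z hz.2.le hz.1.le

lemma exists_fourier (z : ℂ) : ∃ s : UnitAddCircle, z = fourier 1 s * (‖z‖ : ℂ) := by
  refine ⟨((z.arg / (2 * Real.pi) : ℝ) : UnitAddCircle), ?_⟩
  rw [fourier_coe_apply]
  conv_lhs => rw [← Complex.norm_mul_exp_arg_mul_I z]
  rw [mul_comm]
  congr 2
  have : (Real.pi : ℂ) ≠ 0 := by exact_mod_cast Real.pi_ne_zero
  push_cast
  field_simp

lemma fourier_add_one (s t : UnitAddCircle) :
    (fourier 1 (s + t) : ℂ) = fourier 1 s * fourier 1 t := by
  simp [AddCircle.toCircle_add]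

lemma fourier_norm_one (s : UnitAddCircle) : ‖(fourier 1 s : ℂ)‖ = 1 := by
  rw [fourier_one]
  exact Circle.norm_coe _

lemma fourier_ne (s : UnitAddCircle) : (fourier 1 s : ℂ) ≠ 0 := by
  intro h
  have := fourier_norm_one s
  rw [h] at this
  simp at this

lemma av_rot (k : ℂ → ℂ) (z : ℂ) :
    ∫ s : UnitAddCircle, k (fourier 1 s * z) = ∫ s : UnitAddCircle, k (fourier 1 s * (‖z‖ : ℂ)) := by
  obtain ⟨t, ht⟩ := exists_fourier z
  have h1 : ∀ s : UnitAddCircle, k (fourier 1 s * z) = k (fourier 1 (s + t) * (‖z‖ : ℂ)) := by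
    intro s
    rw [fourier_add_one]
    conv_lhs => rw [ht]
    ring_nf
  simp only [h1]
  exact integral_add_right_eq_self (fun s => k (fourier 1 s * (‖z‖ : ℂ))) t

lemma av_eq_av {k : ℂ → ℂ} {u v : ℂ} (hu : u ≠ 0) (hv : v ≠ 0)
    (hk : ∀ z : ℂ, min ‖u‖ ‖v‖ ≤ ‖z‖ → ‖z‖ ≤ max ‖u‖ ‖v‖ → DifferentiableAt ℂ k z) :
    ∫ s : UnitAddCircle, k (fourier 1 s * u) = ∫ s : UnitAddCircle, k (fourier 1 s * v) := by
  rw [av_rot k u, av_rot k v]
  have hu' := norm_pos_iff.mpr hu
  have hv' := norm_pos_iff.mpr hv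
  rcases le_total ‖u‖ ‖v‖ with h | h
  · rw [min_eq_left h, max_eq_right h] at hk
    exact (av_const hu' h hk).symm
  · rw [min_eq_right h, max_eq_left h] at hk
    exact av_const hv' h hk

variable {n : ℕ}

/-- rotation of the coordinates -/
noncomputable def rot (θ : UnitAddTorus (Fin n)) (z : Fin n → ℂ) : Fin n → ℂ :=
  fun j => fourier 1 (θ j) * z j

/-- monomials with integer exponents -/
noncomputable def mono (γ : Fin n → ℤ) (z : Fin n → ℂ) : ℂ := ∏ j, z j ^ γ j

/-- points without zero coordinate -/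
def nz (n : ℕ) : Set (Fin n → ℂ) := {z | ∀ j, z j ≠ 0}

lemma rot_add (θ η : UnitAddTorus (Fin n)) (z : Fin n → ℂ) : rot (θ + η) z = rot θ (rot η z) := by
  funext j
  simp only [rot, Pi.add_apply, fourier_add_one]
  ring

lemma rot_zero (z : Fin n → ℂ) : rot 0 z = z := by
  funext j
  simp [rot]

lemma rot_neg (θ : UnitAddTorus (Fin n)) (z : Fin n → ℂ) : rot (-θ) (rot θ z) = z := by
  rw [← rot_add, neg_add_cancel, rot_zero]

lemma rot_neg' (θ : UnitAddTorus (Fin n)) (z : Fin n → ℂ) : rot θ (rot (-θ) z) = z := by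
  rw [← rot_add, add_neg_cancel, rot_zero]

lemma rot_mem_nz (θ : UnitAddTorus (Fin n)) {z : Fin n → ℂ} (hz : z ∈ nz n) : rot θ z ∈ nz n :=
  fun j => mul_ne_zero (fourier_ne _) (hz j)

lemma continuous_rot : Continuous fun p : UnitAddTorus (Fin n) × (Fin n → ℂ) => rot p.1 p.2 := by
  unfold rot
  fun_prop

lemma norm_rot_apply (θ : UnitAddTorus (Fin n)) (z : Fin n → ℂ) (j : Fin n) :
    ‖rot θ z j‖ = ‖z j‖ := by
  simp only [rot, norm_mul, fourier_norm_one, one_mul]

lemma mono_rot (γ : Fin n → ℤ) (θ : UnitAddTorus (Fin n)) (z : Fin n → ℂ) :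
    mono γ (rot θ z) = UnitAddTorus.mFourier γ θ * mono γ z := by
  simp only [mono, rot, UnitAddTorus.mFourier, ContinuousMap.coe_mk, mul_zpow,
    Finset.prod_mul_distrib]
  congr 1
  apply Finset.prod_congr rfl
  intro j _
  rw [fourier_one, fourier_apply, AddCircle.toCircle_zsmul]
  simp

lemma mono_ne_zero (γ : Fin n → ℤ) {z : Fin n → ℂ} (hz : z ∈ nz n) : mono γ z ≠ 0 :=
  Finset.prod_ne_zero_iff.mpr fun j _ => zpow_ne_zero _ (hz j)

lemma mono_add (γ δ : Fin n → ℤ) {z : Fin n → ℂ} (hz : z ∈ nz n) :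
    mono (γ + δ) z = mono γ z * mono δ z := by
  simp only [mono, Pi.add_apply, ← Finset.prod_mul_distrib]
  exact Finset.prod_congr rfl fun j _ => zpow_add₀ (hz j) _ _

lemma mono_zero (z : Fin n → ℂ) : mono (0 : Fin n → ℤ) z = 1 := by simp [mono]

lemma mono_neg (γ : Fin n → ℤ) (z : Fin n → ℂ) :
    mono (-γ) z = (mono γ z)⁻¹ := by
  simp [mono, Finset.prod_inv_distrib]

/-- invariance under all rotations -/
def RotInv (U : Set (Fin n → ℂ)) : Prop := ∀ z ∈ U, ∀ θ, rot θ z ∈ U

lemma RotInv.iff {U : Set (Fin n → ℂ)} (h : RotInv U) (θ : UnitAddTorus (Fin n)) (z : Fin n → ℂ) :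
    rot θ z ∈ U ↔ z ∈ U :=
  ⟨fun h1 => by simpa [rot_neg] using h _ h1 (-θ), fun h1 => h z h1 θ⟩

/-- the average over the torus -/
noncomputable def avT (k : (Fin n → ℂ) → ℂ) (z : Fin n → ℂ) : ℂ :=
  ∫ θ : UnitAddTorus (Fin n), k (rot θ z)

lemma rot_single_update (θ : UnitAddTorus (Fin n)) (j : Fin n) (s : UnitAddCircle)
    (z : Fin n → ℂ) (c : ℂ) :
    rot (θ + Pi.single j s) (Function.update z j c) =
      Function.update (rot θ z) j (fourier 1 s * (fourier 1 (θ j) * c)) := by
  funext i
  by_cases h : i = j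
  · subst h
    simp only [rot, Pi.add_apply, Pi.single_eq_same, Function.update_self, fourier_add_one]
    ring
  · simp only [rot, Pi.add_apply, Pi.single_eq_of_ne h, add_zero,
      Function.update_of_ne h]

lemma rot_update (θ : UnitAddTorus (Fin n)) (j : Fin n)
    (z : Fin n → ℂ) (c : ℂ) :
    rot θ (Function.update z j c) = Function.update (rot θ z) j (fourier 1 (θ j) * c) := by
  funext i
  by_cases h : i = j
  · subst h
    simp [rot]
  · simp [rot, h]

local instance : Measure.IsAddHaarMeasure (volume : Measure (UnitAddTorus (Fin n))) :=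
  inferInstanceAs (Measure.IsAddHaarMeasure (Measure.pi fun _ : Fin n => (volume : Measure UnitAddCircle)))

local instance : IsProbabilityMeasure (volume : Measure (UnitAddTorus (Fin n))) :=
  inferInstanceAs (IsProbabilityMeasure (Measure.pi fun _ : Fin n => (volume : Measure UnitAddCircle)))

lemma int_shift (g : UnitAddTorus (Fin n) → ℂ) (t : UnitAddTorus (Fin n)) :
    ∫ θ, g (θ + t) = ∫ θ, g θ := integral_add_right_eq_self g t

lemma int_cont (g : UnitAddTorus (Fin n) × UnitAddCircle → ℂ) (hg : Continuous g) :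
    Integrable g (volume.prod volume) :=
  hg.integrable_of_hasCompactSupport (HasCompactSupport.of_compactSpace _)

lemma int_swap (g : UnitAddTorus (Fin n) → UnitAddCircle → ℂ)
    (hg : Integrable (Function.uncurry g) (volume.prod volume)) :
    ∫ θ, ∫ s, g θ s = ∫ s, ∫ θ, g θ s := integral_integral_swap hg

lemma avT_split {U : Set (Fin n → ℂ)} (hUR : RotInv U) {k : (Fin n → ℂ) → ℂ}
    (hk : ContinuousOn k U) {z : Fin n → ℂ} {j : Fin n} {c : ℂ}
    (hc : Function.update z j c ∈ U) :
    avT k (Function.update z j c) = ∫ θ : UnitAddTorus (Fin n), ∫ s : UnitAddCircle,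
      k (Function.update (rot θ z) j (fourier 1 s * (fourier 1 (θ j) * c))) := by
  have hcont : Continuous fun p : UnitAddTorus (Fin n) × UnitAddCircle =>
      k (rot (p.1 + Pi.single j p.2) (Function.update z j c)) := by
    rw [← continuousOn_univ]
    refine hk.comp (t := U) ?_ (fun p _ => hUR _ hc _)
    apply Continuous.continuousOn
    have : Continuous fun p : UnitAddTorus (Fin n) × UnitAddCircle => p.1 + Pi.single j p.2 := by
      refine continuous_fst.add ?_
      exact (continuous_single (A := fun _ : Fin n => UnitAddCircle) j).comp continuous_snd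
    exact continuous_rot.comp (this.prodMk continuous_const)
  have hint : Integrable (Function.uncurry fun (θ : UnitAddTorus (Fin n)) (s : UnitAddCircle) =>
      k (rot (θ + Pi.single j s) (Function.update z j c))) (volume.prod volume) :=
    int_cont _ hcont
  have e1 : avT k (Function.update z j c) = ∫ _ : UnitAddCircle, avT k (Function.update z j c) := by
    rw [integral_const, probReal_univ, one_smul]
  have e2 : ∀ s : UnitAddCircle, avT k (Function.update z j c) = ∫ θ : UnitAddTorus (Fin n),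
        k (rot (θ + Pi.single j s) (Function.update z j c)) := fun s =>
    (int_shift (fun θ => k (rot θ (Function.update z j c))) (Pi.single j s)).symm
  have e3 : avT k (Function.update z j c) = ∫ s : UnitAddCircle, ∫ θ : UnitAddTorus (Fin n),
        k (rot (θ + Pi.single j s) (Function.update z j c)) := by
    rw [e1]
    congr 1
    funext s
    exact e2 s
  rw [e3, ← int_swap _ hint]
  simp only [rot_single_update]

lemma avT_update {U : Set (Fin n → ℂ)} (hU : IsOpen U) (hUR : RotInv U) {k : (Fin n → ℂ) → ℂ}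
    (hk : DifferentiableOn ℂ k U) {z : Fin n → ℂ} {j : Fin n} {a b : ℂ} (ha : a ≠ 0) (hb : b ≠ 0)
    (h : ∀ w : ℂ, min ‖a‖ ‖b‖ ≤ ‖w‖ → ‖w‖ ≤ max ‖a‖ ‖b‖ → Function.update z j w ∈ U) :
    avT k (Function.update z j a) = avT k (Function.update z j b) := by
  rw [avT_split hUR hk.continuousOn (h a (min_le_left _ _) (le_max_left _ _)),
    avT_split hUR hk.continuousOn (h b (min_le_right _ _) (le_max_right _ _))]
  congr 1
  funext θ
  apply av_eq_av (k := fun w => k (Function.update (rot θ z) j w))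
    (mul_ne_zero (fourier_ne _) ha) (mul_ne_zero (fourier_ne _) hb)
  intro w hw1 hw2
  simp only [norm_mul, fourier_norm_one, one_mul] at hw1 hw2
  have hmem : Function.update (rot θ z) j w ∈ U := by
    have h1 : Function.update (rot θ z) j w =
        rot θ (Function.update z j ((fourier 1 (θ j))⁻¹ * w)) := by
      rw [rot_update, mul_inv_cancel_left₀ (fourier_ne _)]
    rw [h1]
    apply hUR
    apply h <;> simpa only [norm_mul, norm_inv, fourier_norm_one, inv_one, one_mul]
  have h2 : DifferentiableAt ℂ k (Function.update (rot θ z) j w) :=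
    hk.differentiableAt (hU.mem_nhds hmem)
  have h3 : DifferentiableAt ℂ (fun w : ℂ => Function.update (rot θ z) j w) w := by
    rw [differentiableAt_pi]
    intro i
    by_cases hi : i = j
    · subst hi
      simp
    · simp [hi]
  exact h2.comp w h3

lemma isOpen_nz : IsOpen (nz n) := by
  have : nz n = ⋂ j, {z : Fin n → ℂ | z j ≠ 0} := by
    ext z
    simp [nz]
  rw [this]
  apply isOpen_iInter_of_finite
  intro j
  exact isOpen_ne.preimage (continuous_apply j)

lemma rotInv_nz : RotInv (nz n) := fun _ hz θ => rot_mem_nz θ hz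

lemma RotInv.inter {U V : Set (Fin n → ℂ)} (hU : RotInv U) (hV : RotInv V) : RotInv (U ∩ V) :=
  fun z hz θ => ⟨hU z hz.1 θ, hV z hz.2 θ⟩

lemma exists_nz (p : Fin n → ℂ) {ε : ℝ} (hε : 0 < ε) : ∃ z ∈ Metric.ball p ε, z ∈ nz n := by
  refine ⟨fun j => if p j = 0 then ((ε / 2 : ℝ) : ℂ) else p j, ?_, ?_⟩
  · rw [Metric.mem_ball, dist_pi_lt_iff hε]
    intro j
    split_ifs with h
    · rw [h, dist_zero_right, Complex.norm_real, Real.norm_eq_abs, abs_of_pos (by linarith)]
      linarith
    · simpa using hε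
  · intro j
    show (if p j = 0 then ((ε / 2 : ℝ) : ℂ) else p j) ≠ 0
    split_ifs with h
    · exact_mod_cast (by positivity : ε / 2 ≠ 0)
    · exact h

lemma exists_norm_eq {u v : ℂ} {r : ℝ} (h1 : min ‖u‖ ‖v‖ ≤ r) (h2 : r ≤ max ‖u‖ ‖v‖) :
    ∃ q ∈ segment ℝ u v, ‖q‖ = r := by
  have hc : IsPreconnected (segment ℝ u v) := (convex_segment u v).isPreconnected
  have hn : ContinuousOn (fun q : ℂ => ‖q‖) (segment ℝ u v) := continuous_norm.continuousOn
  rcases le_total ‖u‖ ‖v‖ with h | h
  · rw [min_eq_left h] at h1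
    rw [max_eq_right h] at h2
    exact hc.intermediate_value (left_mem_segment ℝ u v) (right_mem_segment ℝ u v) hn ⟨h1, h2⟩
  · rw [min_eq_right h] at h1
    rw [max_eq_left h] at h2
    exact hc.intermediate_value (right_mem_segment ℝ u v) (left_mem_segment ℝ u v) hn ⟨h1, h2⟩

lemma avT_ball {Ω : Set (Fin n → ℂ)} (hΩ : IsOpen Ω) (hR : RotInv Ω) {k : (Fin n → ℂ) → ℂ}
    (hk : DifferentiableOn ℂ k (Ω ∩ nz n)) {p : Fin n → ℂ} {ε : ℝ} (hε : 0 < ε)
    (hball : Metric.ball p ε ⊆ Ω) {z z' : Fin n → ℂ} (hz : z ∈ Metric.ball p ε) (hz0 : z ∈ nz n)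
    (hz' : z' ∈ Metric.ball p ε) (hz0' : z' ∈ nz n) : avT k z = avT k z' := by
  classical
  have hb : ∀ w : Fin n → ℂ, w ∈ Metric.ball p ε ↔ ∀ j, dist (w j) (p j) < ε := fun w => by
    rw [Metric.mem_ball, dist_pi_lt_iff hε]
  have key : ∀ S : Finset (Fin n), avT k (S.piecewise z' z) = avT k z := by
    intro S
    induction S using Finset.induction_on with
    | empty => rw [Finset.piecewise_empty]
    | insert j S hj ih =>
      rw [← ih, Finset.piecewise_insert]
      have h1 : S.piecewise z' z = Function.update (S.piecewise z' z) j (z j) := by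
        rw [eq_comm, Function.update_eq_self_iff]
        rw [Finset.piecewise_eq_of_notMem _ _ _ hj]
      conv_rhs => rw [h1]
      apply avT_update (hΩ.inter isOpen_nz) (hR.inter rotInv_nz) hk (hz0' j) (hz0 j)
      intro w hw1 hw2
      obtain ⟨q, hq1, hq2⟩ := exists_norm_eq hw1 hw2
      have hw0 : w ≠ 0 := by
        intro h
        rw [h, norm_zero] at hw1
        have := lt_min (norm_pos_iff.mpr (hz0' j)) (norm_pos_iff.mpr (hz0 j))
        linarith
      have hq0 : q ≠ 0 := by
        rw [← norm_pos_iff, hq2]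
        exact norm_pos_iff.mpr hw0
      constructor
      · obtain ⟨s, hs⟩ := exists_fourier (w / q)
        have h2 : w = fourier 1 s * q := by
          rw [norm_div, hq2, div_self (norm_ne_zero_iff.mpr hw0)] at hs
          field_simp at hs
          rw [mul_comm]
          simpa using hs
        have h3 : Function.update (S.piecewise z' z) j w =
            rot (Pi.single j s) (Function.update (S.piecewise z' z) j q) := by
          have := rot_single_update (0 : UnitAddTorus (Fin n)) j s (S.piecewise z' z) q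
          rw [zero_add] at this
          rw [this, h2, rot_zero]
          simp
        rw [h3]
        apply hR
        apply hball
        rw [hb]
        intro i
        by_cases hi : i = j
        · subst hi
          rw [Function.update_self]
          have hcv := convex_ball (p i) ε
          have h4 : z' i ∈ Metric.ball (p i) ε := (hb z').mp hz' i
          have h5 : z i ∈ Metric.ball (p i) ε := (hb z).mp hz i
          exact hcv.segment_subset h4 h5 hq1
        · rw [Function.update_of_ne hi]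
          by_cases hS : i ∈ S
          · rw [Finset.piecewise_eq_of_mem _ _ _ hS]
            exact (hb z').mp hz' i
          · rw [Finset.piecewise_eq_of_notMem _ _ _ hS]
            exact (hb z).mp hz i
      · intro i
        by_cases hi : i = j
        · subst hi
          rwa [Function.update_self]
        · rw [Function.update_of_ne hi]
          by_cases hS : i ∈ S
          · rw [Finset.piecewise_eq_of_mem _ _ _ hS]
            exact hz0' i
          · rw [Finset.piecewise_eq_of_notMem _ _ _ hS]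
            exact hz0 i
  have := key Finset.univ
  rw [Finset.piecewise_univ] at this
  exact this.symm

lemma avT_const {Ω : Set (Fin n → ℂ)} (hΩ : IsOpen Ω) (hR : RotInv Ω) (hc : IsPreconnected Ω)
    {k : (Fin n → ℂ) → ℂ} (hk : DifferentiableOn ℂ k (Ω ∩ nz n)) {z z0 : Fin n → ℂ}
    (hz : z ∈ Ω ∩ nz n) (hz0 : z0 ∈ Ω ∩ nz n) : avT k z = avT k z0 := by
  by_contra hne
  set U : Set (Fin n → ℂ) := {p | ∃ ε > 0, Metric.ball p ε ⊆ Ω ∧
    ∀ w ∈ Metric.ball p ε, w ∈ nz n → avT k w = avT k z0} with hU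
  set V : Set (Fin n → ℂ) := {p | ∃ ε > 0, Metric.ball p ε ⊆ Ω ∧
    ∀ w ∈ Metric.ball p ε, w ∈ nz n → avT k w ≠ avT k z0} with hV
  have hUo : IsOpen U := by
    rw [Metric.isOpen_iff]
    rintro p ⟨ε, hε, h1, h2⟩
    refine ⟨ε / 2, by positivity, fun q hq => ⟨ε / 2, by positivity, ?_, ?_⟩⟩
    · refine Subset.trans ?_ h1
      apply Metric.ball_subset_ball'
      have := Metric.mem_ball.mp hq
      linarith
    · intro w hw
      apply h2
      refine Metric.ball_subset_ball' ?_ hw
      have := Metric.mem_ball.mp hq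
      linarith
  have hVo : IsOpen V := by
    rw [Metric.isOpen_iff]
    rintro p ⟨ε, hε, h1, h2⟩
    refine ⟨ε / 2, by positivity, fun q hq => ⟨ε / 2, by positivity, ?_, ?_⟩⟩
    · refine Subset.trans ?_ h1
      apply Metric.ball_subset_ball'
      have := Metric.mem_ball.mp hq
      linarith
    · intro w hw
      apply h2
      refine Metric.ball_subset_ball' ?_ hw
      have := Metric.mem_ball.mp hq
      linarith
  have hcov : Ω ⊆ U ∪ V := by
    intro p hp
    obtain ⟨ε, hε, hb⟩ := Metric.isOpen_iff.mp hΩ p hp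
    obtain ⟨w, hw1, hw2⟩ := exists_nz p hε
    by_cases h : avT k w = avT k z0
    · left
      exact ⟨ε, hε, hb, fun w' hw' hw0' => by rw [← h]; exact avT_ball hΩ hR hk hε hb hw' hw0' hw1 hw2⟩
    · right
      exact ⟨ε, hε, hb, fun w' hw' hw0' => by
        rw [avT_ball hΩ hR hk hε hb hw' hw0' hw1 hw2]
        exact h⟩
  have hUn : (Ω ∩ U).Nonempty := by
    refine ⟨z0, hz0.1, ?_⟩
    rcases hcov hz0.1 with h | ⟨ε, hε, _, h2⟩
    · exact h
    · exact absurd rfl (h2 z0 (Metric.mem_ball_self hε) hz0.2)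
  have hVn : (Ω ∩ V).Nonempty := by
    refine ⟨z, hz.1, ?_⟩
    rcases hcov hz.1 with ⟨ε, hε, _, h2⟩ | h
    · exact absurd (h2 z (Metric.mem_ball_self hε) hz.2) hne
    · exact h
  obtain ⟨p, _, ⟨ε, hε, _, h2⟩, ⟨ε', hε', _, h2'⟩⟩ := hc U V hUo hVo hcov hUn hVn
  obtain ⟨w, hw1, hw2⟩ := exists_nz p (lt_min hε hε')
  exact h2' w (Metric.ball_subset_ball (min_le_right _ _) hw1) hw2
    (h2 w (Metric.ball_subset_ball (min_le_left _ _) hw1) hw2)

lemma mono_diff {γ : Fin n → ℤ} {z : Fin n → ℂ} (h : ∀ j, z j ≠ 0 ∨ 0 ≤ γ j) :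
    DifferentiableAt ℂ (mono γ) z := by
  classical
  have h1 : ∀ j ∈ (Finset.univ : Finset (Fin n)),
      HasFDerivAt (fun w : Fin n → ℂ => w j ^ γ j)
        (fderiv ℂ (fun w : Fin n → ℂ => w j ^ γ j) z) z := by
    intro j _
    apply DifferentiableAt.hasFDerivAt
    exact DifferentiableAt.comp (g := fun w : ℂ => w ^ γ j) z
      (differentiableAt_zpow.mpr (h j)) (differentiableAt_apply j z)
  exact (HasFDerivAt.finsetProd h1).differentiableAt

/-- Laurent coefficients: the `γ`-th Fourier coefficient of a holomorphic function along the torus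
orbits is a constant multiple of the monomial `z ^ γ`. -/
theorem laurent {Ω : Set (Fin n → ℂ)} (hΩ : IsOpen Ω) (hR : RotInv Ω) (hc : IsPreconnected Ω)
    {G : (Fin n → ℂ) → ℂ} (hG : DifferentiableOn ℂ G Ω) (γ : Fin n → ℤ) :
    ∃ c : ℂ, ∀ z ∈ Ω ∩ nz n,
      ∫ θ : UnitAddTorus (Fin n), UnitAddTorus.mFourier (-γ) θ * G (rot θ z) = c * mono γ z := by
  by_cases hne : (Ω ∩ nz n).Nonempty
  · obtain ⟨z0, hz0⟩ := hne
    set k : (Fin n → ℂ) → ℂ := fun z => G z * mono (-γ) z with hk
    have hkd : DifferentiableOn ℂ k (Ω ∩ nz n) := by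
      intro z hz
      have h1 : DifferentiableAt ℂ G z := hG.differentiableAt (hΩ.mem_nhds hz.1)
      have h2 : DifferentiableAt ℂ (mono (-γ)) z := by
        apply mono_diff
        intro j
        exact Or.inl (hz.2 j)
      exact (h1.mul h2).differentiableWithinAt
    refine ⟨avT k z0, fun z hz => ?_⟩
    rw [← avT_const hΩ hR hc hkd hz hz0]
    unfold avT
    rw [← integral_mul_const]
    congr 1
    funext θ
    simp only [hk, mono_rot]
    rw [mono_neg]
    have := mono_ne_zero γ hz.2
    field_simp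
  · exact ⟨0, fun z hz => absurd ⟨z, hz⟩ hne⟩

end Q71.RH
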