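import Mathlib
import Pool.Agent.Q71.RH.Torus

open MeasureTheory Set Filter Topology Complex ComplexConjugate

namespace Q71.RH

variable {n : ℕ}

noncomputable local instance : MeasureSpace UnitAddCircle := ⟨AddCircle.haarAddCircle⟩

local instance : Measure.IsAddHaarMeasure (volume : Measure UnitAddCircle) :=
  inferInstanceAs (Measure.IsAddHaarMeasure AddCircle.haarAddCircle)

local instance : IsProbabilityMeasure (volume : Measure UnitAddCircle) :=
  inferInstanceAs (IsProbabilityMeasure AddCircle.haarAddCircle)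

local instance : Measure.IsAddHaarMeasure (volume : Measure (UnitAddTorus (Fin n))) :=
  inferInstanceAs (Measure.IsAddHaarMeasure (Measure.pi fun _ : Fin n => (volume : Measure UnitAddCircle)))

local instance : IsProbabilityMeasure (volume : Measure (UnitAddTorus (Fin n))) :=
  inferInstanceAs (IsProbabilityMeasure (Measure.pi fun _ : Fin n => (volume : Measure UnitAddCircle)))

lemma mp_rot (θ : UnitAddTorus (Fin n)) :
    MeasurePreserving (rot θ) (volume : Measure (Fin n → ℂ)) volume := by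
  have h : ∀ j : Fin n, MeasurePreserving (fun w : ℂ => (fourier 1 (θ j) : ℂ) * w) volume volume := by
    intro j
    have h1 := (rotation (AddCircle.toCircle (θ j))).measurePreserving
    have h2 : (fun w : ℂ => (fourier 1 (θ j) : ℂ) * w) = rotation (AddCircle.toCircle (θ j)) := by
      funext w
      rw [fourier_one]
      rfl
    rw [h2]
    exact h1
  exact volume_preserving_pi h

lemma me_rot (θ : UnitAddTorus (Fin n)) : MeasurableEmbedding (rot θ) := by
  let e : (Fin n → ℂ) ≃ᵐ (Fin n → ℂ) :=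
    { toFun := rot θ
      invFun := rot (-θ)
      left_inv := fun z => rot_neg θ z
      right_inv := fun z => rot_neg' θ z
      measurable_toFun := (mp_rot θ).measurable
      measurable_invFun := (mp_rot (-θ)).measurable }
  exact e.measurableEmbedding

lemma measurable_mono (γ : Fin n → ℤ) : Measurable (mono γ) := by
  unfold mono
  apply Finset.measurable_prod
  intro j _
  exact (measurable_pi_apply j).pow_const _

/-- Averaging over the torus. -/
theorem averaging {Ω : Set (Fin n → ℂ)} {G : (Fin n → ℂ) → ℂ} (hGm : Measurable G)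
    {γ : Fin n → ℤ} {c : ℂ}
    (hc : ∀ z ∈ Ω ∩ nz n,
      ∫ θ : UnitAddTorus (Fin n), UnitAddTorus.mFourier (-γ) θ * G (rot θ z) = c * mono γ z)
    {R : Set (Fin n → ℂ)} (hRm : MeasurableSet R) (hR : RotInv R) (hRΩ : R ⊆ Ω ∩ nz n)
    (hRf : volume R < ⊤) {ψ : (Fin n → ℂ) → ℂ} (hψm : Measurable ψ)
    (hψ : ∀ θ z, ψ (rot θ z) = ψ z) {M : ℝ}
    (hM : ∀ z ∈ R, ‖G z * conj (mono γ z) * ψ z‖ ≤ M) :
    ∫ z in R, G z * conj (mono γ z) * ψ z = c * ∫ z in R, mono γ z * conj (mono γ z) * ψ z := by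
  set Φ : (Fin n → ℂ) → ℂ := fun z => G z * conj (mono γ z) * ψ z with hΦ
  have hΦm : Measurable Φ :=
    (hGm.mul (continuous_conj.measurable.comp (measurable_mono γ))).mul hψm
  have h1 : ∀ θ, ∫ z in R, Φ (rot θ z) = ∫ z in R, Φ z := by
    intro θ
    have h2 : rot θ ⁻¹' R = R := by
      ext z
      exact hR.iff θ z
    have := (mp_rot θ).setIntegral_preimage_emb (me_rot θ) Φ R
    rwa [h2] at this
  have : IsFiniteMeasure (volume.restrict R) := ⟨by simpa using hRf⟩
  have hint : Integrable (Function.uncurry fun (θ : UnitAddTorus (Fin n)) (z : Fin n → ℂ) =>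
      Φ (rot θ z)) (volume.prod (volume.restrict R)) := by
    have hmeas : Measurable (Function.uncurry fun (θ : UnitAddTorus (Fin n)) (z : Fin n → ℂ) =>
        Φ (rot θ z)) := hΦm.comp continuous_rot.measurable
    refine Integrable.of_bound hmeas.aestronglyMeasurable M ?_
    have h3 : ∀ᵐ p : UnitAddTorus (Fin n) × (Fin n → ℂ) ∂(volume.prod (volume.restrict R)),
        p.2 ∈ R := by
      have : ∀ᵐ z ∂(volume.restrict R), z ∈ R := ae_restrict_mem hRm
      exact Measure.quasiMeasurePreserving_snd.ae this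
    filter_upwards [h3] with p hp
    exact hM _ (hR _ hp _)
  calc ∫ z in R, Φ z = ∫ _ : UnitAddTorus (Fin n), ∫ z in R, Φ z := by
        rw [integral_const, probReal_univ, one_smul]
    _ = ∫ θ : UnitAddTorus (Fin n), ∫ z in R, Φ (rot θ z) := by
        congr 1
        funext θ
        exact (h1 θ).symm
    _ = ∫ z in R, ∫ θ : UnitAddTorus (Fin n), Φ (rot θ z) := integral_integral_swap hint
    _ = ∫ z in R, c * (mono γ z * conj (mono γ z) * ψ z) := by
        apply setIntegral_congr_fun hRm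
        intro z hz
        have h4 := hc z (hRΩ hz)
        have h5 : ∀ θ : UnitAddTorus (Fin n), Φ (rot θ z) =
            (UnitAddTorus.mFourier (-γ) θ * G (rot θ z)) * (conj (mono γ z) * ψ z) := by
          intro θ
          simp only [hΦ, mono_rot, hψ, map_mul, UnitAddTorus.mFourier_neg]
          ring
        simp only [h5]
        rw [integral_mul_const, h4]
        ring
    _ = _ := by rw [integral_const_mul]

/-- the squared `L²` mass of a monomial on a set -/
noncomputable def mass (Ω : Set (Fin n → ℂ)) (γ : Fin n → ℤ) : ENNReal :=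
  ∫⁻ z in Ω, ‖mono γ z‖ₑ ^ 2

lemma enorm_mono (γ : Fin n → ℤ) (z : Fin n → ℂ) :
    ‖mono γ z‖ = ∏ j, ‖z j‖ ^ γ j := by
  simp [mono, norm_prod, norm_zpow]

/-- A monomial with a negative exponent is not square integrable near the hyperplane. -/
theorem nonint {Ω : Set (Fin n → ℂ)} (hΩ : IsOpen Ω) {γ : Fin n → ℤ} {j : Fin n}
    {p : Fin n → ℂ} (hp : p ∈ Ω) (hpj : p j = 0) (hγ : mass Ω γ < ⊤) : 0 ≤ γ j := by
  classical
  by_contra hneg
  push Not at hneg
  obtain ⟨ε0, hε0, hb0⟩ := Metric.isOpen_iff.mp hΩ p hp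
  -- move to a point whose other coordinates do not vanish
  obtain ⟨q, hq1, hq2⟩ : ∃ q : Fin n → ℂ, q ∈ Metric.ball p ε0 ∧ q j = 0 ∧ ∀ i ≠ j, q i ≠ 0 := by
    obtain ⟨w, hw1, hw2⟩ := exists_nz p hε0
    refine ⟨Function.update w j 0, ?_, by simp, fun i hi => ?_⟩
    · rw [Metric.mem_ball, dist_pi_lt_iff hε0] at hw1 ⊢
      intro i
      by_cases hi : i = j
      · subst hi
        rw [Function.update_self, hpj]
        simpa using hε0
      · rw [Function.update_of_ne hi]
        exact hw1 i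
    · rw [Function.update_of_ne hi]
      exact hw2 i
  obtain ⟨hqj, hqi⟩ := hq2
  -- a radius
  obtain ⟨ε, hε, hε1, hbΩ, hεi⟩ : ∃ ε > 0, ε ≤ 1 ∧ Metric.ball q ε ⊆ Ω ∧
      ∀ i ≠ j, 2 * ε ≤ ‖q i‖ := by
    have h1 : ∃ δ > 0, Metric.ball q δ ⊆ Ω :=
      Metric.isOpen_iff.mp hΩ q (hb0 hq1)
    obtain ⟨δ, hδ, h1⟩ := h1
    have h2 : ∃ η > 0, ∀ i ≠ j, η ≤ ‖q i‖ := by
      have hfin : ∀ i : Fin n, ∃ η > 0, i ≠ j → η ≤ ‖q i‖ := by
        intro i
        by_cases hi : i = j
        · exact ⟨1, one_pos, fun h => absurd hi h⟩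
        · exact ⟨‖q i‖, norm_pos_iff.mpr (hqi i hi), fun _ => le_rfl⟩
      choose η hη1 hη2 using hfin
      obtain ⟨i0, _, hi0⟩ := Finset.exists_min_image Finset.univ η ⟨j, Finset.mem_univ j⟩
      exact ⟨η i0, hη1 i0, fun i hi => (hi0 i (Finset.mem_univ i)).trans (hη2 i hi)⟩
    obtain ⟨η, hη, h2⟩ := h2
    refine ⟨min (min δ 1) (η / 2), by positivity, (min_le_left _ _).trans (min_le_right _ _), ?_, ?_⟩
    · exact (Metric.ball_subset_ball ((min_le_left _ _).trans (min_le_left _ _))).trans h1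
    · intro i hi
      have := min_le_right (min δ 1) (η / 2)
      linarith [h2 i hi]
  -- the shrinking sets
  set Q : ℕ → Set (Fin n → ℂ) := fun m => Set.pi univ (fun i =>
    if i = j then Metric.ball (0 : ℂ) (ε / 2 ^ m) else Metric.ball (q i) ε) with hQ
  have hQj : ∀ m z, z ∈ Q m → z j ∈ Metric.ball (0 : ℂ) (ε / 2 ^ m) := by
    intro m z hz
    have := hz j (mem_univ j)
    simpa using this
  have hQi : ∀ m z i, i ≠ j → z ∈ Q m → z i ∈ Metric.ball (q i) ε := by
    intro m z i hi hz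
    simpa only [if_neg hi] using hz i (mem_univ i)
  have hQΩ : ∀ m, Q m ⊆ Ω := by
    intro m z hz
    apply hbΩ
    rw [Metric.mem_ball, dist_pi_lt_iff hε]
    intro i
    by_cases hi : i = j
    · rw [hi, hqj]
      refine (Metric.mem_ball.mp (hQj m z hz)).trans_le ?_
      exact div_le_self hε.le (one_le_pow₀ (by norm_num))
    · exact hQi m z i hi hz
  have hvol : ∀ m, volume (Q m) = ENNReal.ofReal (1 / 4 ^ m) * volume (Q 0) := by
    intro m
    simp only [hQ]
    rw [volume_pi_pi, volume_pi_pi, ← Finset.mul_prod_erase _ _ (Finset.mem_univ j),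
      ← Finset.mul_prod_erase _ _ (Finset.mem_univ j), if_pos rfl, if_pos rfl,
      Complex.volume_ball, Complex.volume_ball, ← mul_assoc]
    congr 1
    · rw [mul_comm (ENNReal.ofReal (1 / 4 ^ m)), mul_comm (ENNReal.ofReal (ε / 2 ^ m) ^ 2),
        mul_comm (ENNReal.ofReal (ε / 2 ^ 0) ^ 2), mul_assoc]
      congr 1
      rw [← ENNReal.ofReal_pow (by positivity), ← ENNReal.ofReal_pow (by positivity),
        ← ENNReal.ofReal_mul (by positivity)]
      congr 1
      rw [pow_zero, div_one, div_pow, ← pow_mul, mul_comm m 2, pow_mul]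
      norm_num
      ring
    · apply Finset.prod_congr rfl
      intro i hi
      rw [if_neg (Finset.ne_of_mem_erase hi), if_neg (Finset.ne_of_mem_erase hi)]
  have hvol0 : 0 < volume (Q 0) := by
    simp only [hQ]
    rw [volume_pi_pi]
    rw [pos_iff_ne_zero, Finset.prod_ne_zero_iff]
    intro i _
    split_ifs
    · exact (Metric.measure_ball_pos volume _ (by positivity)).ne'
    · exact (Metric.measure_ball_pos volume _ hε).ne'
  have hvolf : volume (Q 0) < ⊤ := by
    simp only [hQ]
    rw [volume_pi_pi]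
    apply ENNReal.prod_lt_top
    intro i _
    split_ifs
    · exact measure_ball_lt_top
    · exact measure_ball_lt_top
  -- lower bound of the monomial
  obtain ⟨C, hC, hlow⟩ : ∃ C : ℝ, 0 < C ∧ ∀ m : ℕ, ∀ z ∈ Q m, z j ≠ 0 → C * 4 ^ m ≤ ‖mono γ z‖ ^ 2 := by
    have hfac : ∀ i : Fin n, ∃ Ci : ℝ, 0 < Ci ∧ (i ≠ j → ∀ w ∈ Metric.ball (q i) ε, Ci ≤ ‖w‖ ^ γ i) := by
      intro i
      by_cases hi : i = j
      · exact ⟨1, one_pos, fun h => absurd hi h⟩
      · have hlo : ∀ w ∈ Metric.ball (q i) ε, ε ≤ ‖w‖ := by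
          intro w hw
          have h1 := hεi i hi
          have h2 := norm_sub_norm_le (q i) w
          rw [Metric.mem_ball, dist_eq_norm, norm_sub_rev] at hw
          linarith
        have hhi : ∀ w ∈ Metric.ball (q i) ε, ‖w‖ ≤ ‖q i‖ + ε := by
          intro w hw
          have h2 := norm_sub_norm_le w (q i)
          rw [Metric.mem_ball, dist_eq_norm] at hw
          linarith
        rcases le_total 0 (γ i) with h | h
        · refine ⟨ε ^ γ i, by positivity, fun _ w hw => zpow_le_zpow_left₀ h hε.le (hlo w hw)⟩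
        · refine ⟨(‖q i‖ + ε) ^ γ i, by positivity, fun _ w hw => ?_⟩
          obtain ⟨l, hl⟩ := Int.eq_ofNat_of_zero_le (neg_nonneg.mpr h)
          have h3 : γ i = -(l : ℤ) := by omega
          have hw0 : 0 < ‖w‖ := hε.trans_le (hlo w hw)
          rw [h3, zpow_neg, zpow_neg, zpow_natCast, zpow_natCast]
          exact inv_anti₀ (by positivity) (by gcongr; exact hhi w hw)
    choose Ci hCi1 hCi2 using hfac
    refine ⟨(∏ i ∈ Finset.univ.erase j, Ci i) ^ 2, by
      have : 0 < ∏ i ∈ Finset.univ.erase j, Ci i := Finset.prod_pos fun i _ => hCi1 i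
      positivity, ?_⟩
    intro m z hz hzj
    rw [enorm_mono, ← Finset.mul_prod_erase _ _ (Finset.mem_univ j), mul_pow, mul_comm]
    apply mul_le_mul _ _ (by positivity) (by positivity)
    · have hzj' : ‖z j‖ ≤ 1 / 2 ^ m := by
        have := hQj m z hz
        rw [mem_ball_zero_iff] at this
        refine this.le.trans ?_
        gcongr
      have hzj0 : 0 < ‖z j‖ := norm_pos_iff.mpr hzj
      obtain ⟨l, hl⟩ := Int.eq_ofNat_of_zero_le (by omega : 0 ≤ -γ j - 1)
      have h3 : γ j = -((l + 1 : ℕ) : ℤ) := by push_cast; omega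
      rw [h3, zpow_neg, zpow_natCast]
      have h4 : (2 : ℝ) ^ m ≤ ‖z j‖⁻¹ := by
        rw [le_inv_comm₀ (by positivity) hzj0]
        simpa using hzj'
      have h5 : (1 : ℝ) ≤ ‖z j‖⁻¹ := le_trans (one_le_pow₀ (by norm_num)) h4
      have h6 : (2 : ℝ) ^ m ≤ (‖z j‖ ^ (l + 1))⁻¹ := by
        rw [← inv_pow, pow_succ]
        calc (2 : ℝ) ^ m ≤ 1 * ‖z j‖⁻¹ := by rwa [one_mul]
          _ ≤ ‖z j‖⁻¹ ^ l * ‖z j‖⁻¹ := by
              have := one_le_pow₀ h5 (n := l)
              gcongr
      calc (4 : ℝ) ^ m = (2 ^ m) ^ 2 := by rw [← pow_mul, mul_comm, pow_mul]; norm_num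
        _ ≤ _ := by gcongr
    · have hp1 : ∏ i ∈ Finset.univ.erase j, Ci i ≤ ∏ i ∈ Finset.univ.erase j, ‖z i‖ ^ γ i := by
        apply Finset.prod_le_prod
        · exact fun i _ => (hCi1 i).le
        · intro i hi
          have hij := Finset.ne_of_mem_erase hi
          exact hCi2 i hij _ (hQi m z i hij hz)
      have : 0 ≤ ∏ i ∈ Finset.univ.erase j, Ci i := Finset.prod_nonneg fun i _ => (hCi1 i).le
      gcongr
  have hQm : ∀ m, MeasurableSet (Q m) := by
    intro m
    simp only [hQ]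
    apply MeasurableSet.univ_pi
    intro i
    split_ifs
    · exact measurableSet_ball
    · exact measurableSet_ball
  have hlow2 : ∀ m, ENNReal.ofReal C * volume (Q 0) ≤ ∫⁻ z in Q m, ‖mono γ z‖ₑ ^ 2 := by
    intro m
    have h1 : ∫⁻ _ in Q m, ENNReal.ofReal (C * 4 ^ m) ≤ ∫⁻ z in Q m, ‖mono γ z‖ₑ ^ 2 := by
      apply lintegral_mono_ae
      have h2 : ∀ᵐ z : Fin n → ℂ, z j ≠ 0 := by
        rw [ae_iff]
        simp only [ne_eq, not_not]
        exact Measure.pi_hyperplane (fun _ : Fin n => (volume : Measure ℂ)) j 0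
      filter_upwards [ae_restrict_mem (hQm m), ae_restrict_of_ae h2] with z hz hz0
      have h3 := hlow m z hz hz0
      rw [← ofReal_norm, ← ENNReal.ofReal_pow (norm_nonneg _)]
      exact ENNReal.ofReal_le_ofReal h3
    refine le_trans ?_ h1
    rw [setLIntegral_const, hvol m, ← mul_assoc, ← ENNReal.ofReal_mul (by positivity)]
    apply le_of_eq
    congr 2
    field_simp
  have htend : Tendsto (fun m => ∫⁻ z in Q m, ‖mono γ z‖ₑ ^ 2) atTop (𝓝 0) := by
    have h1 : Tendsto (fun m => (volume.restrict Ω) (Q m)) atTop (𝓝 0) := by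
      have h2 : ∀ m, (volume.restrict Ω) (Q m) = ENNReal.ofReal (1 / 4 ^ m) * volume (Q 0) := by
        intro m
        rw [Measure.restrict_apply (hQm m), inter_eq_left.mpr (hQΩ m), hvol m]
      simp only [h2]
      have h3 : Tendsto (fun m : ℕ => ENNReal.ofReal (1 / 4 ^ m)) atTop (𝓝 0) := by
        rw [← ENNReal.ofReal_zero]
        apply ENNReal.tendsto_ofReal
        have := tendsto_pow_atTop_nhds_zero_of_lt_one (r := (1 / 4 : ℝ)) (by norm_num) (by norm_num)
        simpa [one_div, inv_pow] using this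
      have h4 := ENNReal.Tendsto.mul_const h3 (b := volume (Q 0)) (Or.inr hvolf.ne)
      simpa using h4
    have h5 := tendsto_setLIntegral_zero (μ := volume.restrict Ω) (f := fun z => ‖mono γ z‖ₑ ^ 2)
      hγ.ne h1
    refine h5.congr fun m => ?_
    rw [Measure.restrict_restrict (hQm m), inter_eq_left.mpr (hQΩ m)]
  have h6 := ge_of_tendsto' htend hlow2
  have h7 : 0 < ENNReal.ofReal C * volume (Q 0) :=
    ENNReal.mul_pos (ENNReal.ofReal_pos.mpr hC).ne' hvol0.ne'
  exact absurd h6 (not_le.mpr h7)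

end Q71.RH
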