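import Mathlib
import Pool.Agent.Q71.RH.Defs
import Pool.Agent.Q71.RH.Meas

open MeasureTheory Set Filter Topology Complex ComplexConjugate

namespace Q71.RH

variable {n : ℕ}

lemma measurable_ind {Ω : Set (Fin n → ℂ)} (hΩ : IsOpen Ω) {f : (Fin n → ℂ) → ℂ}
    (hf : ContinuousOn f Ω) : Measurable (Ω.indicator f) := by
  classical
  have h : Ω.indicator f = Ω.piecewise f (fun _ => 0) := by
    rw [← Set.piecewise_eq_indicator]
    rfl
  rw [h]
  exact hf.measurable_piecewise continuousOn_const hΩ.measurableSet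

lemma memLp_mono {Ω : Set (Fin n → ℂ)} {γ : Fin n → ℤ} (h : mass Ω γ < ⊤) :
    MemLp (mono γ) 2 (volume.restrict Ω) := by
  refine ⟨(measurable_mono γ).aestronglyMeasurable, ?_⟩
  rw [eLpNorm_lt_top_iff_lintegral_rpow_enorm_lt_top (by norm_num) (by norm_num)]
  simpa [mass] using h

lemma diff_mono {Ω : Set (Fin n → ℂ)} (hΩ : IsOpen Ω) {γ : Fin n → ℤ} (h : mass Ω γ < ⊤) :
    DifferentiableOn ℂ (mono γ) Ω := by
  intro z hz
  apply DifferentiableAt.differentiableWithinAt
  apply mono_diff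
  intro j
  by_cases hj : z j = 0
  · exact Or.inr (nonint hΩ hz hj h)
  · exact Or.inl hj

/-- the class of a monomial in the Bergman space -/
noncomputable def mb {Ω : Set (Fin n → ℂ)} (hΩ : IsOpen Ω) {γ : Fin n → ℤ} (h : mass Ω γ < ⊤) :
    bergman Ω :=
  ⟨(memLp_mono h).toLp _, mono γ, diff_mono hΩ h, (memLp_mono h).coeFn_toLp⟩

lemma mb_coe {Ω : Set (Fin n → ℂ)} (hΩ : IsOpen Ω) {γ : Fin n → ℤ} (h : mass Ω γ < ⊤) :
    ((mb hΩ h : L2 Ω) : (Fin n → ℂ) → ℂ) =ᵐ[volume.restrict Ω] mono γ :=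
  (memLp_mono h).coeFn_toLp

lemma inner_L2 {Ω : Set (Fin n → ℂ)} (u v : L2 Ω) {U V : (Fin n → ℂ) → ℂ}
    (hu : u =ᵐ[volume.restrict Ω] U) (hv : v =ᵐ[volume.restrict Ω] V) :
    inner ℂ u v = ∫ z in Ω, conj (U z) * V z := by
  rw [L2.inner_def]
  apply integral_congr_ae
  filter_upwards [hu, hv] with z h1 h2
  rw [h1, h2, RCLike.inner_apply]
  ring

lemma memLp_ind {Ω R : Set (Fin n → ℂ)} (hR : IsCompact R) {η : (Fin n → ℂ) → ℂ}
    (hη : AEStronglyMeasurable η (volume.restrict Ω)) {M : ℝ} (hM : ∀ z ∈ R, ‖η z‖ ≤ M) :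
    MemLp (R.indicator η) 2 (volume.restrict Ω) := by
  have hRm : MeasurableSet R := hR.isClosed.measurableSet
  have h1 : MemLp (R.indicator fun _ => (M : ℝ)) 2 (volume.restrict Ω) := by
    apply memLp_indicator_const 2 hRm
    right
    exact ((Measure.restrict_apply_le _ _).trans_lt hR.measure_lt_top).ne
  refine h1.mono (hη.indicator hRm) (ae_of_all _ fun z => ?_)
  by_cases hz : z ∈ R
  · simp only [indicator_of_mem hz]
    refine (hM z hz).trans ?_
    rw [Real.norm_eq_abs]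
    exact le_abs_self M
  · simp [indicator_of_notMem hz]

/-- Pairing with a compactly supported function orthogonal to the Bergman space. -/
lemma test_pair {Ω : Set (Fin n → ℂ)} (hΩ : IsOpen Ω) {f : (Fin n → ℂ) → ℂ}
    (hf : ContinuousOn f Ω) {K : bergman Ω →L[ℂ] L2 Ω} (hd : Dense (hankelDomain Ω f))
    (hv : ∀ g ∈ hankelDomain Ω f, IsHankelValue f g (K g)) {R : Set (Fin n → ℂ)}
    (hR : IsCompact R) (hRΩ : R ⊆ Ω) {η : (Fin n → ℂ) → ℂ} (hηm : Measurable η) {M : ℝ}
    (hM : ∀ z ∈ R, ‖η z‖ ≤ M) (H : L2 Ω) (hH : H =ᵐ[volume.restrict Ω] R.indicator η)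
    (horth : ∀ a ∈ bergman Ω, inner ℂ H a = 0) (g : bergman Ω) :
    inner ℂ H (K g) = ∫ z in R, conj (η z) * (conj (f z) * (g : L2 Ω) z) := by
  have hRm : MeasurableSet R := hR.isClosed.measurableSet
  obtain ⟨Mf, hMf⟩ := hR.exists_bound_of_continuousOn (hf.mono hRΩ)
  have hfm : AEStronglyMeasurable f (volume.restrict Ω) := hf.aestronglyMeasurable hΩ.measurableSet
  have hV : MemLp (R.indicator fun z => f z * η z) 2 (volume.restrict Ω) := by
    apply memLp_ind hR (hfm.mul hηm.aestronglyMeasurable) (M := Mf * M)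
    intro z hz
    rw [Pi.mul_apply, norm_mul]
    have h1 := hMf z hz
    have h2 := hM z hz
    exact mul_le_mul h1 h2 (norm_nonneg _) ((norm_nonneg _).trans h1)
  set V : L2 Ω := hV.toLp _ with hVdef
  have hVc : V =ᵐ[volume.restrict Ω] R.indicator fun z => f z * η z := hV.coeFn_toLp
  have key : (fun g : bergman Ω => inner ℂ H (K g)) = fun g : bergman Ω => inner ℂ V (g : L2 Ω) := by
    apply Continuous.ext_on hd
    · exact (continuous_const.inner K.continuous)
    · exact continuous_const.inner continuous_subtype_val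
    · intro g hg
      obtain ⟨u, hu1, hu2, hu3⟩ := hv g hg
      have h1 : K g = u - (u - K g) := by abel
      simp only
      rw [h1, inner_sub_right, horth _ hu2, sub_zero, inner_L2 H u hH hu1,
        inner_L2 V (g : L2 Ω) hVc (ae_eq_refl _)]
      congr 1
      funext z
      by_cases hz : z ∈ R
      · simp only [indicator_of_mem hz, map_mul]
        ring
      · simp [indicator_of_notMem hz]
  have h2 : inner ℂ H (K g) = inner ℂ V (g : L2 Ω) := congrFun key g
  rw [h2, inner_L2 V (g : L2 Ω) hVc (ae_eq_refl _)]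
  have h3 : ∀ z, conj (R.indicator (fun z => f z * η z) z) * (g : L2 Ω) z =
      R.indicator (fun z => conj (η z) * (conj (f z) * (g : L2 Ω) z)) z := by
    intro z
    by_cases hz : z ∈ R
    · simp only [indicator_of_mem hz, map_mul]
      ring
    · simp [indicator_of_notMem hz]
  simp only [h3]
  rw [integral_indicator hRm, Measure.restrict_restrict hRm, inter_eq_left.mpr hRΩ]

lemma norm_mono_rot (γ : Fin n → ℤ) (θ : UnitAddTorus (Fin n)) (z : Fin n → ℂ) :
    ‖mono γ (rot θ z)‖ = ‖mono γ z‖ := by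
  rw [enorm_mono, enorm_mono]
  simp only [norm_rot_apply]

lemma cont_mono (γ : Fin n → ℤ) : ContinuousOn (mono γ) (nz n) := fun z hz =>
  (mono_diff fun j => Or.inl (hz j)).continuousAt.continuousWithinAt

/-- real mass on a set -/
noncomputable def mr (R : Set (Fin n → ℂ)) (γ : Fin n → ℤ) : ℝ := ∫ z in R, ‖mono γ z‖ ^ 2

lemma intOn_of_cont {R : Set (Fin n → ℂ)} (hR : IsCompact R) {g : (Fin n → ℂ) → ℝ}
    (hg : ContinuousOn g R) : IntegrableOn g R := hg.integrableOn_compact hR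

lemma norm_mono_add (γ δ : Fin n → ℤ) {z : Fin n → ℂ} (hz : z ∈ nz n) :
    ‖mono (γ + δ) z‖ ^ 2 = ‖mono γ z‖ ^ 2 * ‖mono δ z‖ ^ 2 := by
  rw [mono_add γ δ hz, norm_mul, mul_pow]

lemma ofReal_pow_aux (x : ℝ) : (((x : ℝ) : ℂ) ^ 2).re = x ^ 2 := by
  rw [← Complex.ofReal_pow, Complex.ofReal_re]

theorem key_ineq {Ω : Set (Fin n → ℂ)} (hΩ : IsOpen Ω) (hΩR : RotInv Ω) (hΩc : IsPreconnected Ω)
    {f : (Fin n → ℂ) → ℂ} (hf : DifferentiableOn ℂ f Ω) {K : bergman Ω →L[ℂ] L2 Ω}
    (hd : Dense (hankelDomain Ω f)) (hv : ∀ g ∈ hankelDomain Ω f, IsHankelValue f g (K g))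
    {α δ : Fin n → ℤ} {cα : ℂ}
    (hcα : ∀ z ∈ Ω ∩ nz n, ∫ θ : UnitAddTorus (Fin n), UnitAddTorus.mFourier (-α) θ * f (rot θ z)
      ∂(Measure.pi fun _ => AddCircle.haarAddCircle) = cα * mono α z)
    (hβ : mass Ω (δ + α) < ⊤) {R : Set (Fin n → ℂ)} (hRc : IsCompact R) (hR : RotInv R)
    (hRΩ : R ⊆ Ω ∩ nz n) (hpos : 0 < mr R δ) :
    ‖cα‖ ^ 2 * (mr R (δ + α + α) - mr R (δ + α) ^ 2 / mr R δ) ≤ ‖K (mb hΩ hβ)‖ ^ 2 := by
  have hRm : MeasurableSet R := hRc.isClosed.measurableSet
  have hRnz : R ⊆ nz n := fun z hz => (hRΩ hz).2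
  have hRΩ' : R ⊆ Ω := fun z hz => (hRΩ hz).1
  set A := mr R (δ + α + α) with hA
  set B := mr R (δ + α) with hB
  set D := mr R δ with hD
  set κ := B / D with hκ
  have hκD : κ * D = B := div_mul_cancel₀ _ hpos.ne'
  set φ : (Fin n → ℂ) → ℝ := fun z => ‖mono α z‖ ^ 2 - κ with hφ
  have hφc : ContinuousOn φ R := (((cont_mono α).mono hRnz).norm.pow 2).sub continuousOn_const
  have hcm : ∀ γ : Fin n → ℤ, ContinuousOn (fun z => ‖mono γ z‖ ^ 2) R := fun γ =>
    ((cont_mono γ).mono hRnz).norm.pow 2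
  -- the three real integrals
  have I1 : ∫ z in R, ‖mono δ z‖ ^ 2 * φ z = 0 := by
    have h1 : ∫ z in R, ‖mono δ z‖ ^ 2 * φ z = ∫ z in R, (‖mono (δ + α) z‖ ^ 2 - κ * ‖mono δ z‖ ^ 2) := by
      apply setIntegral_congr_fun hRm
      intro z hz
      simp only [hφ, norm_mono_add δ α (hRnz hz)]
      ring
    rw [h1, integral_sub (intOn_of_cont hRc (hcm _)) ((intOn_of_cont hRc (hcm _)).const_mul κ),
      integral_const_mul]
    show B - κ * D = 0
    rw [hκD, sub_self]
  have I2 : ∫ z in R, ‖mono (δ + α) z‖ ^ 2 * φ z = A - κ * B := by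
    have h1 : ∫ z in R, ‖mono (δ + α) z‖ ^ 2 * φ z =
        ∫ z in R, (‖mono (δ + α + α) z‖ ^ 2 - κ * ‖mono (δ + α) z‖ ^ 2) := by
      apply setIntegral_congr_fun hRm
      intro z hz
      simp only [hφ, norm_mono_add (δ + α) α (hRnz hz)]
      ring
    rw [h1, integral_sub (intOn_of_cont hRc (hcm _)) ((intOn_of_cont hRc (hcm _)).const_mul κ),
      integral_const_mul]
    rfl
  have I3 : ∫ z in R, ‖mono δ z‖ ^ 2 * φ z ^ 2 = A - κ * B := by
    have h1 : ∫ z in R, ‖mono δ z‖ ^ 2 * φ z ^ 2 =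
        ∫ z in R, (‖mono (δ + α) z‖ ^ 2 * φ z - κ * (‖mono δ z‖ ^ 2 * φ z)) := by
      apply setIntegral_congr_fun hRm
      intro z hz
      simp only [hφ, norm_mono_add δ α (hRnz hz)]
      ring
    have h2 : IntegrableOn (fun z => ‖mono (δ + α) z‖ ^ 2 * φ z) R :=
      intOn_of_cont hRc ((hcm _).mul hφc)
    have h3 : IntegrableOn (fun z => κ * (‖mono δ z‖ ^ 2 * φ z)) R :=
      (intOn_of_cont hRc ((hcm _).mul hφc)).const_mul κ
    rw [h1, integral_sub h2 h3, integral_const_mul, I1, I2]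
    ring
  -- the test function
  set η : (Fin n → ℂ) → ℂ := fun z => mono δ z * (φ z : ℂ) with hη
  have hφm : Measurable φ := ((measurable_mono α).norm.pow_const 2).sub_const κ
  have hηm : Measurable η := (measurable_mono δ).mul (measurable_ofReal.comp hφm)
  have hηc : ContinuousOn η R :=
    ((cont_mono δ).mono hRnz).mul (continuous_ofReal.comp_continuousOn hφc)
  obtain ⟨M, hM⟩ := hRc.exists_bound_of_continuousOn hηc
  have hH := memLp_ind (Ω := Ω) hRc hηm.aestronglyMeasurable hM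
  set H : L2 Ω := hH.toLp _ with hHdef
  have hHc : H =ᵐ[volume.restrict Ω] R.indicator η := hH.coeFn_toLp
  have hφrot : ∀ θ z, φ (rot θ z) = φ z := fun θ z => by
    simp only [hφ, norm_mono_rot]
  -- general fact about restricting
  have hres : ∀ F : (Fin n → ℂ) → ℂ, ∫ z in Ω, R.indicator F z = ∫ z in R, F z := by
    intro F
    rw [integral_indicator hRm, Measure.restrict_restrict hRm, inter_eq_left.mpr hRΩ']
  -- orthogonality
  have horth : ∀ a ∈ bergman Ω, inner ℂ H a = 0 := by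
    rintro a ⟨G, hG, haG⟩
    obtain ⟨c, hc⟩ := laurent hΩ hΩR hΩc hG δ
    have hGm := measurable_ind hΩ hG.continuousOn
    rw [inner_L2 H a hHc haG]
    have h1 : ∀ z, conj (R.indicator η z) * G z =
        R.indicator (fun z => Ω.indicator G z * conj (mono δ z) * (φ z : ℂ)) z := by
      intro z
      by_cases hz : z ∈ R
      · simp only [indicator_of_mem hz, indicator_of_mem (hRΩ' hz), hη, map_mul, conj_ofReal]
        ring
      · simp [indicator_of_notMem hz]
    simp only [h1]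
    rw [hres]
    have hc' : ∀ z ∈ Ω ∩ nz n, ∫ θ : UnitAddTorus (Fin n),
        UnitAddTorus.mFourier (-δ) θ * Ω.indicator G (rot θ z)
          ∂(Measure.pi fun _ => AddCircle.haarAddCircle) = c * mono δ z := by
      intro z hz
      rw [← hc z hz]
      apply integral_congr_ae
      filter_upwards with θ
      rw [indicator_of_mem (hΩR z hz.1 θ)]
    obtain ⟨M', hM'⟩ := hRc.exists_bound_of_continuousOn
      (f := fun z => G z * conj (mono δ z) * (φ z : ℂ))
      (((hG.continuousOn.mono hRΩ').mul (continuous_conj.comp_continuousOn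
        ((cont_mono δ).mono hRnz))).mul (continuous_ofReal.comp_continuousOn hφc))
    rw [averaging (ψ := fun z => ((φ z : ℝ) : ℂ)) hGm hc' hRm hR hRΩ hRc.measure_lt_top
      (measurable_ofReal.comp hφm) (fun θ z => by simp only [hφrot]) (M := M') (fun z hz => by
        rw [indicator_of_mem (hRΩ' hz)]
        exact hM' z hz)]
    have h2 : ∫ z in R, mono δ z * conj (mono δ z) * ((φ z : ℝ) : ℂ) = 0 := by
      have h3 : ∀ z, mono δ z * conj (mono δ z) * ((φ z : ℝ) : ℂ) =
          ((‖mono δ z‖ ^ 2 * φ z : ℝ) : ℂ) := by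
        intro z
        rw [Complex.mul_conj, Complex.normSq_eq_norm_sq]
        push_cast
        rfl
      simp only [h3]
      rw [integral_complex_ofReal, I1, ofReal_zero]
    rw [h2, mul_zero]
  -- the norm of the test function
  have hnorm : ‖H‖ ^ 2 = A - κ * B := by
    have h1 : (inner ℂ H H : ℂ) = ((A - κ * B : ℝ) : ℂ) := by
      rw [inner_L2 H H hHc hHc]
      have h2 : ∀ z, conj (R.indicator η z) * R.indicator η z =
          R.indicator (fun z => ((‖mono δ z‖ ^ 2 * φ z ^ 2 : ℝ) : ℂ)) z := by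
        intro z
        by_cases hz : z ∈ R
        · simp only [indicator_of_mem hz, hη, map_mul, conj_ofReal]
          have h4 : conj (mono δ z) * mono δ z = ((‖mono δ z‖ ^ 2 : ℝ) : ℂ) := by
            rw [mul_comm, Complex.mul_conj, Complex.normSq_eq_norm_sq]
          push_cast at h4 ⊢
          linear_combination (φ z : ℂ) ^ 2 * h4
        · simp [indicator_of_notMem hz]
      simp only [h2]
      rw [hres, integral_complex_ofReal, I3]
    have h3 := inner_self_eq_norm_sq_to_K (𝕜 := ℂ) H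
    rw [h1] at h3
    have h4 := congrArg Complex.re h3
    rw [Complex.ofReal_re] at h4
    rw [h4, ← ofReal_pow_aux]
    rfl
  -- the pairing
  have hpair := test_pair hΩ hf.continuousOn hd hv hRc hRΩ' hηm hM H hHc horth (mb hΩ hβ)
  have hval : inner ℂ H (K (mb hΩ hβ)) = conj (cα * ((A - κ * B : ℝ) : ℂ)) := by
    rw [hpair]
    have hb := mb_coe hΩ hβ
    have hb' : ((mb hΩ hβ : L2 Ω) : (Fin n → ℂ) → ℂ) =ᵐ[volume.restrict R] mono (δ + α) :=
      ae_restrict_of_ae_restrict_of_subset hRΩ' hb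
    have h1 : ∫ z in R, conj (η z) * (conj (f z) * (mb hΩ hβ : L2 Ω) z) =
        conj (∫ z in R, Ω.indicator f z * conj (mono α z) *
          (mono δ z * conj (mono δ z) * (φ z : ℂ))) := by
      rw [← integral_conj]
      apply integral_congr_ae
      filter_upwards [hb', ae_restrict_mem hRm] with z hz hzR
      rw [hz, indicator_of_mem (hRΩ' hzR), mono_add δ α (hRnz hzR)]
      simp only [hη, map_mul, conj_ofReal, conj_conj]
      ring
    rw [h1]
    congr 1
    have hfm := measurable_ind hΩ hf.continuousOn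
    have hc' : ∀ z ∈ Ω ∩ nz n, ∫ θ : UnitAddTorus (Fin n),
        UnitAddTorus.mFourier (-α) θ * Ω.indicator f (rot θ z)
          ∂(Measure.pi fun _ => AddCircle.haarAddCircle) = cα * mono α z := by
      intro z hz
      rw [← hcα z hz]
      apply integral_congr_ae
      filter_upwards with θ
      rw [indicator_of_mem (hΩR z hz.1 θ)]
    set ψ : (Fin n → ℂ) → ℂ := fun z => mono δ z * conj (mono δ z) * (φ z : ℂ) with hψ
    have hψm : Measurable ψ := ((measurable_mono δ).mul
      (continuous_conj.measurable.comp (measurable_mono δ))).mul (measurable_ofReal.comp hφm)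
    have hψeq : ∀ z, ψ z = ((‖mono δ z‖ ^ 2 * φ z : ℝ) : ℂ) := by
      intro z
      simp only [hψ]
      rw [Complex.mul_conj, Complex.normSq_eq_norm_sq]
      push_cast
      rfl
    obtain ⟨M', hM'⟩ := hRc.exists_bound_of_continuousOn
      (f := fun z => f z * conj (mono α z) * (mono δ z * conj (mono δ z) * (φ z : ℂ)))
      (((hf.continuousOn.mono hRΩ').mul (continuous_conj.comp_continuousOn
        ((cont_mono α).mono hRnz))).mul ((((cont_mono δ).mono hRnz).mul
          (continuous_conj.comp_continuousOn ((cont_mono δ).mono hRnz))).mul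
        (continuous_ofReal.comp_continuousOn hφc)))
    rw [averaging hfm hc' hRm hR hRΩ hRc.measure_lt_top hψm
      (fun θ z => by rw [hψeq, hψeq, norm_mono_rot, hφrot]) (M := M') (fun z hz => by
        rw [indicator_of_mem (hRΩ' hz)]
        exact hM' z hz)]
    congr 1
    rw [← I2, ← integral_complex_ofReal]
    apply setIntegral_congr_fun hRm
    intro z hz
    simp only
    rw [hψeq, Complex.mul_conj, Complex.normSq_eq_norm_sq, norm_mono_add δ α (hRnz hz)]
    push_cast
    ring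
  have hAB : 0 ≤ A - κ * B := by rw [← hnorm]; positivity
  have hcs := norm_inner_le_norm (𝕜 := ℂ) H (K (mb hΩ hβ))
  rw [hval, RCLike.norm_conj, norm_mul, Complex.norm_real, Real.norm_eq_abs, abs_of_nonneg hAB] at hcs
  have hgoal : B ^ 2 / D = κ * B := by
    rw [hκ]
    ring
  rw [hgoal]
  rcases hAB.eq_or_lt with h0 | h0
  · rw [← h0, mul_zero]
    positivity
  · have h1 : (‖cα‖ * (A - κ * B)) ^ 2 ≤ (A - κ * B) * ‖K (mb hΩ hβ)‖ ^ 2 := by
      rw [← hnorm, ← mul_pow]
      rw [hnorm]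
      exact pow_le_pow_left₀ (by positivity) hcs 2
    have h2 : (A - κ * B) * (‖cα‖ ^ 2 * (A - κ * B)) ≤ (A - κ * B) * ‖K (mb hΩ hβ)‖ ^ 2 := by
      calc _ = (‖cα‖ * (A - κ * B)) ^ 2 := by ring
        _ ≤ _ := h1
    exact le_of_mul_le_mul_left h2 h0

end Q71.RH
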