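import Mathlib
import Pool.Agent.Q71.RH.Key

open MeasureTheory Set Filter Topology Complex ComplexConjugate

namespace Q71.RH

variable {n : ℕ}

/-- compact exhaustion -/
def Kset (U : Set (Fin n → ℂ)) (m : ℕ) : Set (Fin n → ℂ) :=
  Metric.closedBall 0 m ∩ {z | 1 / ((m : ℝ) + 1) ≤ Metric.infDist z Uᶜ}

/-- rotation invariant compact exhaustion -/
def Rset (U : Set (Fin n → ℂ)) (m : ℕ) : Set (Fin n → ℂ) :=
  (fun p : UnitAddTorus (Fin n) × (Fin n → ℂ) => rot p.1 p.2) '' (univ ×ˢ Kset U m)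

lemma Kset_compact (U : Set (Fin n → ℂ)) (m : ℕ) : IsCompact (Kset U m) := by
  apply (isCompact_closedBall (0 : Fin n → ℂ) m).inter_right
  exact isClosed_le continuous_const (Metric.continuous_infDist_pt _)

lemma Rset_compact (U : Set (Fin n → ℂ)) (m : ℕ) : IsCompact (Rset U m) :=
  (isCompact_univ.prod (Kset_compact U m)).image continuous_rot

lemma Kset_sub (U : Set (Fin n → ℂ)) (m : ℕ) : Kset U m ⊆ U := by
  intro z hz
  by_contra h
  have h1 : 1 / ((m : ℝ) + 1) ≤ Metric.infDist z Uᶜ := hz.2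
  rw [Metric.infDist_zero_of_mem h] at h1
  have : (0 : ℝ) < 1 / ((m : ℝ) + 1) := by positivity
  linarith

lemma Rset_sub {U : Set (Fin n → ℂ)} (hU : RotInv U) (m : ℕ) : Rset U m ⊆ U := by
  rintro _ ⟨⟨θ, z⟩, ⟨_, hz⟩, rfl⟩
  exact hU _ (Kset_sub U m hz) θ

lemma Rset_inv (U : Set (Fin n → ℂ)) (m : ℕ) : RotInv (Rset U m) := by
  rintro _ ⟨⟨θ, z⟩, ⟨_, hz⟩, rfl⟩ η
  exact ⟨(η + θ, z), ⟨mem_univ _, hz⟩, rot_add η θ z⟩

lemma Kset_mono (U : Set (Fin n → ℂ)) : Monotone (Kset U) := by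
  intro m m' h z hz
  refine ⟨Metric.closedBall_subset_closedBall (by exact_mod_cast h) hz.1, ?_⟩
  have h1 : 1 / ((m : ℝ) + 1) ≤ Metric.infDist z Uᶜ := hz.2
  show 1 / ((m' : ℝ) + 1) ≤ Metric.infDist z Uᶜ
  refine le_trans ?_ h1
  have : (m : ℝ) ≤ m' := by exact_mod_cast h
  gcongr

lemma Rset_mono (U : Set (Fin n → ℂ)) : Monotone (Rset U) := fun _ _ h =>
  image_mono (prod_mono subset_rfl (Kset_mono U h))

lemma Rset_union {U : Set (Fin n → ℂ)} (hU : IsOpen U) (hUR : RotInv U) (hne : (Uᶜ).Nonempty) :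
    ⋃ m, Rset U m = U := by
  apply Subset.antisymm (iUnion_subset fun m => Rset_sub hUR m)
  intro z hz
  have h1 : 0 < Metric.infDist z Uᶜ :=
    (hU.isClosed_compl.notMem_iff_infDist_pos hne).mp (by simpa using hz)
  obtain ⟨m1, hm1⟩ := exists_nat_ge ‖z‖
  obtain ⟨m2, hm2⟩ := exists_nat_one_div_lt h1
  rw [mem_iUnion]
  refine ⟨max m1 m2, ⟨(0, z), ⟨mem_univ _, ?_, ?_⟩, rot_zero z⟩⟩
  · rw [mem_closedBall_zero_iff]
    refine hm1.trans ?_
    exact_mod_cast le_max_left m1 m2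
  · show 1 / (((max m1 m2 : ℕ) : ℝ) + 1) ≤ Metric.infDist z Uᶜ
    refine le_trans ?_ hm2.le
    have : (m2 : ℝ) ≤ (max m1 m2 : ℕ) := by exact_mod_cast le_max_right m1 m2
    gcongr

lemma mass_inter_nz {Ω : Set (Fin n → ℂ)} (γ : Fin n → ℤ) : mass (Ω ∩ nz n) γ = mass Ω γ := by
  unfold mass
  apply setLIntegral_congr
  have h : ∀ᵐ z : Fin n → ℂ, z ∈ nz n := by
    have h1 : ∀ j : Fin n, ∀ᵐ z : Fin n → ℂ, z j ≠ 0 := by
      intro j
      rw [ae_iff]
      simp only [ne_eq, not_not]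
      exact Measure.pi_hyperplane (fun _ : Fin n => (volume : Measure ℂ)) j 0
    exact ae_all_iff.mpr h1
  filter_upwards [h] with z hz
  apply propext
  constructor
  · exact fun h => h.1
  · exact fun h => ⟨h, hz⟩

lemma mass_tendsto {U : Set (Fin n → ℂ)} (hU : IsOpen U) (hUR : RotInv U) (hne : (Uᶜ).Nonempty)
    (γ : Fin n → ℤ) : Tendsto (fun m => mass (Rset U m) γ) atTop (𝓝 (mass U γ)) := by
  have h1 : mass U γ = ⨆ m, mass (Rset U m) γ := by
    unfold mass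
    rw [← setLIntegral_iUnion_of_directed _ (directed_of_isDirected_le (Rset_mono U)),
      Rset_union hU hUR hne]
  rw [h1]
  apply tendsto_atTop_iSup
  intro m m' h
  exact lintegral_mono_set (Rset_mono U h)

lemma mass_eq_mr {R : Set (Fin n → ℂ)} (hR : IsCompact R) (hRnz : R ⊆ nz n) (γ : Fin n → ℤ) :
    mass R γ = ENNReal.ofReal (mr R γ) := by
  unfold mass mr
  rw [ofReal_integral_eq_lintegral_ofReal]
  · apply lintegral_congr
    intro z
    rw [← ofReal_norm, ENNReal.ofReal_pow (norm_nonneg _)]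
  · exact (((cont_mono γ).mono hRnz).norm.pow 2).integrableOn_compact hR
  · exact ae_of_all _ fun z => by positivity

lemma mass_pos {U : Set (Fin n → ℂ)} (hU : IsOpen U) (hne : (U ∩ nz n).Nonempty)
    (γ : Fin n → ℤ) : 0 < mass U γ := by
  rw [← mass_inter_nz]
  unfold mass
  rw [setLIntegral_pos_iff (((measurable_mono γ).enorm).pow_const 2)]
  have h1 : Function.support (fun z : Fin n → ℂ => ‖mono γ z‖ₑ ^ 2) ∩ (U ∩ nz n) = U ∩ nz n := by
    apply inter_eq_right.mpr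
    intro z hz
    simp only [Function.mem_support, ne_eq, pow_eq_zero_iff, OfNat.ofNat_ne_zero,
      not_false_eq_true, enorm_eq_zero]
    exact mono_ne_zero γ hz.2
  rw [h1]
  exact (hU.inter isOpen_nz).measure_pos volume hne

theorem limit_ineq (hn : 0 < n) {Ω : Set (Fin n → ℂ)} (hΩ : IsOpen Ω) (hΩR : RotInv Ω)
    (hΩc : IsPreconnected Ω) (hne : (Ω ∩ nz n).Nonempty)
    {f : (Fin n → ℂ) → ℂ} (hf : DifferentiableOn ℂ f Ω) {K : bergman Ω →L[ℂ] L2 Ω}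
    (hd : Dense (hankelDomain Ω f)) (hv : ∀ g ∈ hankelDomain Ω f, IsHankelValue f g (K g))
    {α δ : Fin n → ℤ} {cα : ℂ}
    (hcα : ∀ z ∈ Ω ∩ nz n, ∫ θ : UnitAddTorus (Fin n), UnitAddTorus.mFourier (-α) θ * f (rot θ z)
      ∂(Measure.pi fun _ => AddCircle.haarAddCircle) = cα * mono α z)
    (hβ : mass Ω (δ + α) < ⊤) :
    ENNReal.ofReal (‖cα‖ ^ 2) * mass Ω (δ + α + α) ≤
      ENNReal.ofReal (‖K (mb hΩ hβ)‖ ^ 2) +
        ENNReal.ofReal (‖cα‖ ^ 2) * (mass Ω (δ + α) ^ 2 / mass Ω δ) := by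
  set U := Ω ∩ nz n with hU
  have hUo : IsOpen U := hΩ.inter isOpen_nz
  have hUR : RotInv U := hΩR.inter rotInv_nz
  have hUc : (Uᶜ).Nonempty := ⟨0, fun h => h.2 ⟨0, hn⟩ rfl⟩
  have hT : ∀ γ, Tendsto (fun m => mass (Rset U m) γ) atTop (𝓝 (mass Ω γ)) := by
    intro γ
    have := mass_tendsto hUo hUR hUc γ
    rwa [hU, mass_inter_nz] at this
  have hRnz : ∀ m, Rset U m ⊆ nz n := fun m z hz => (Rset_sub hUR m hz).2
  have hL : Tendsto (fun m => ENNReal.ofReal (‖cα‖ ^ 2) * mass (Rset U m) (δ + α + α)) atTop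
      (𝓝 (ENNReal.ofReal (‖cα‖ ^ 2) * mass Ω (δ + α + α))) :=
    ENNReal.Tendsto.const_mul (hT _) (Or.inr ENNReal.ofReal_ne_top)
  have hδpos : 0 < mass Ω δ := mass_pos hΩ hne δ
  have hQ : Tendsto (fun m => mass (Rset U m) (δ + α) ^ 2 / mass (Rset U m) δ) atTop
      (𝓝 (mass Ω (δ + α) ^ 2 / mass Ω δ)) := by
    apply ENNReal.Tendsto.div _ (Or.inr hδpos.ne') (hT δ)
    · right
      exact (ENNReal.pow_lt_top hβ).ne
    · exact ENNReal.Tendsto.pow (hT _)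
  have hRt : Tendsto (fun m => ENNReal.ofReal (‖K (mb hΩ hβ)‖ ^ 2) + ENNReal.ofReal (‖cα‖ ^ 2) *
      (mass (Rset U m) (δ + α) ^ 2 / mass (Rset U m) δ)) atTop
      (𝓝 (ENNReal.ofReal (‖K (mb hΩ hβ)‖ ^ 2) +
        ENNReal.ofReal (‖cα‖ ^ 2) * (mass Ω (δ + α) ^ 2 / mass Ω δ))) :=
    tendsto_const_nhds.add (ENNReal.Tendsto.const_mul hQ (Or.inr ENNReal.ofReal_ne_top))
  apply le_of_tendsto_of_tendsto hL hRt
  have hev : ∀ᶠ m in atTop, 0 < mass (Rset U m) δ := (hT δ).eventually (lt_mem_nhds hδpos)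
  filter_upwards [hev] with m hm
  have hmr : 0 < mr (Rset U m) δ := by
    rw [mass_eq_mr (Rset_compact U m) (hRnz m)] at hm
    exact ENNReal.ofReal_pos.mp hm
  have hk := key_ineq hΩ hΩR hΩc hf hd hv hcα hβ (Rset_compact U m) (Rset_inv U m)
    (Rset_sub hUR m) hmr
  rw [mass_eq_mr (Rset_compact U m) (hRnz m), mass_eq_mr (Rset_compact U m) (hRnz m),
    mass_eq_mr (Rset_compact U m) (hRnz m), ← ENNReal.ofReal_pow, ← ENNReal.ofReal_div_of_pos hmr,
    ← ENNReal.ofReal_mul (by positivity), ← ENNReal.ofReal_mul (by positivity),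
    ← ENNReal.ofReal_add (by positivity) (by positivity)]
  · apply ENNReal.ofReal_le_ofReal
    linarith
  · exact integral_nonneg fun z => by positivity

end Q71.RH
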