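import Mathlib
import Pool.Agent.Q71.RH.Limit
import Pool.Agent.Q71.RH.HS

open MeasureTheory Set Filter Topology Complex ComplexConjugate

namespace Q71.RH

variable {n : ℕ}

lemma rotInv_of_isReinhardt {Ω : Set (Fin n → ℂ)} (h : IsReinhardt Ω) : RotInv Ω := by
  intro z hz θ
  have h1 : ∀ j, ∃ t : ℝ, (t : UnitAddCircle) = θ j := fun j =>
    QuotientAddGroup.mk_surjective (θ j)
  choose t ht using h1
  have h2 := h z hz (fun j => 2 * Real.pi * t j)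
  have h3 : rot θ z = fun j => Complex.exp (((2 * Real.pi * t j : ℝ) : ℂ) * I) * z j := by
    funext j
    unfold rot
    rw [← ht j, fourier_coe_apply]
    congr 2
    push_cast
    ring
  rw [h3]
  exact h2

lemma exists_mFourier_neg {δ : Fin n → ℤ} (hδ : δ ≠ 0) :
    ∃ θ : UnitAddTorus (Fin n), UnitAddTorus.mFourier δ θ = -1 := by
  obtain ⟨j, hj⟩ := Function.ne_iff.mp hδ
  simp only [Pi.zero_apply, ne_eq] at hj
  refine ⟨Pi.single j ((1 / (2 * (δ j : ℝ)) : ℝ) : UnitAddCircle), ?_⟩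
  unfold UnitAddTorus.mFourier
  rw [ContinuousMap.coe_mk, Finset.prod_eq_single j]
  · rw [Pi.single_eq_same, fourier_coe_apply]
    have hj' : (δ j : ℂ) ≠ 0 := by exact_mod_cast hj
    rw [show (2 * Real.pi * I * (δ j : ℂ) * ((1 / (2 * (δ j : ℝ)) : ℝ) : ℂ) / ((1 : ℝ) : ℂ) : ℂ) =
      Real.pi * I by
        push_cast
        field_simp]
    exact Complex.exp_pi_mul_I
  · intro i _ hi
    rw [Pi.single_eq_of_ne hi]
    simp
  · intro h
    exact absurd (Finset.mem_univ j) h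

lemma inner_mb {Ω : Set (Fin n → ℂ)} (hΩ : IsOpen Ω) (hΩR : RotInv Ω) {β γ : Fin n → ℤ}
    (hβ : mass Ω β < ⊤) (hγ : mass Ω γ < ⊤) (hne : β ≠ γ) :
    inner ℂ (mb hΩ hβ) (mb hΩ hγ) = 0 := by
  have h0 : inner ℂ (mb hΩ hβ) (mb hΩ hγ) = ∫ z in Ω, conj (mono β z) * mono γ z :=
    inner_L2 _ _ (mb_coe hΩ hβ) (mb_coe hΩ hγ)
  rw [h0]
  obtain ⟨θ, hθ⟩ := exists_mFourier_neg (δ := -β + γ) (by
    intro h
    apply hne
    have := congrArg (β + ·) h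
    simpa using this.symm)
  set Φ : (Fin n → ℂ) → ℂ := fun z => conj (mono β z) * mono γ z with hΦ
  have h1 := (mp_rot θ).setIntegral_preimage_emb (me_rot θ) Φ Ω
  have h2 : rot θ ⁻¹' Ω = Ω := by
    ext z
    exact hΩR.iff θ z
  rw [h2] at h1
  have h3 : ∀ z, Φ (rot θ z) = -Φ z := by
    intro z
    simp only [hΦ, mono_rot, map_mul]
    rw [← UnitAddTorus.mFourier_neg]
    have h4 : (UnitAddTorus.mFourier (-β) θ : ℂ) * UnitAddTorus.mFourier γ θ = -1 := by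
      rw [← UnitAddTorus.mFourier_add, hθ]
    linear_combination (conj (mono β z) * mono γ z) * h4
  simp only [h3] at h1
  rw [integral_neg] at h1
  have h5 : (2 : ℂ) * ∫ z in Ω, Φ z = 0 := by linear_combination -h1
  simpa using h5

lemma norm_mb {Ω : Set (Fin n → ℂ)} (hΩ : IsOpen Ω) {β : Fin n → ℤ} (hβ : mass Ω β < ⊤) :
    ENNReal.ofReal (‖mb hΩ hβ‖ ^ 2) = mass Ω β := by
  have h0 : inner ℂ (mb hΩ hβ) (mb hΩ hβ) = ∫ z in Ω, conj (mono β z) * mono β z :=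
    inner_L2 _ _ (mb_coe hΩ hβ) (mb_coe hΩ hβ)
  have h1 : ∀ z, conj (mono β z) * mono β z = ((‖mono β z‖ ^ 2 : ℝ) : ℂ) := by
    intro z
    rw [mul_comm, Complex.mul_conj, Complex.normSq_eq_norm_sq]
  simp only [h1] at h0
  rw [integral_complex_ofReal] at h0
  have h3 := inner_self_eq_norm_sq_to_K (𝕜 := ℂ) (mb hΩ hβ)
  rw [h0] at h3
  have h4 := congrArg Complex.re h3
  rw [Complex.ofReal_re] at h4
  have h5 : ‖mb hΩ hβ‖ ^ 2 = ∫ z in Ω, ‖mono β z‖ ^ 2 := by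
    rw [h4, ← ofReal_pow_aux]
    rfl
  rw [h5, ofReal_integral_eq_lintegral_ofReal]
  · unfold mass
    apply lintegral_congr
    intro z
    rw [← ofReal_norm, ENNReal.ofReal_pow (norm_nonneg _)]
  · exact (memLp_mono hβ).integrable_norm_pow (by norm_num)
  · exact ae_of_all _ fun z => by positivity

/-- normalised monomials -/
noncomputable def vb {Ω : Set (Fin n → ℂ)} (hΩ : IsOpen Ω) (β : {β : Fin n → ℤ // mass Ω β < ⊤}) :
    bergman Ω := ((‖mb hΩ β.2‖ : ℝ) : ℂ)⁻¹ • mb hΩ β.2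

lemma vb_orthonormal {Ω : Set (Fin n → ℂ)} (hΩ : IsOpen Ω) (hΩR : RotInv Ω)
    (hne : (Ω ∩ nz n).Nonempty) : Orthonormal ℂ (vb (n := n) hΩ) := by
  constructor
  · rintro ⟨β, hβ⟩
    have h1 := norm_mb hΩ hβ
    have h2 : 0 < ‖mb hΩ hβ‖ := by
      have h3 := mass_pos hΩ hne β
      rw [← h1] at h3
      have h4 := ENNReal.ofReal_pos.mp h3
      by_contra h
      have h5 : ‖mb hΩ hβ‖ = 0 := le_antisymm (not_lt.mp h) (norm_nonneg _)
      rw [h5] at h4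
      norm_num at h4
    unfold vb
    rw [norm_smul, norm_inv, Complex.norm_real, norm_norm, inv_mul_cancel₀ h2.ne']
  · rintro ⟨β, hβ⟩ ⟨γ, hγ⟩ hne'
    have h1 := inner_mb hΩ hΩR hβ hγ (fun h => hne' (by simp [h]))
    have h2 := inner_smul_left (𝕜 := ℂ) (E := bergman Ω) (mb hΩ hβ)
      ((((‖mb hΩ hγ‖ : ℝ) : ℂ)⁻¹ • mb hΩ hγ : bergman Ω)) (((‖mb hΩ hβ‖ : ℝ) : ℂ)⁻¹)
    have h3 := inner_smul_right (𝕜 := ℂ) (E := bergman Ω) (mb hΩ hβ) (mb hΩ hγ)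
      (((‖mb hΩ hγ‖ : ℝ) : ℂ)⁻¹)
    have h4 : (inner ℂ (mb hΩ hβ) (mb hΩ hγ) : ℂ) = 0 := h1
    rw [h4, mul_zero] at h3
    rw [h3, mul_zero] at h2
    exact h2

open Classical in
/-- the diagonal entries -/
noncomputable def av {Ω : Set (Fin n → ℂ)} (hΩ : IsOpen Ω) (K : bergman Ω →L[ℂ] L2 Ω)
    (β : Fin n → ℤ) : ENNReal :=
  if h : mass Ω β < ⊤ then ENNReal.ofReal (‖K (mb hΩ h)‖ ^ 2) / mass Ω β else 0

lemma av_sum {Ω : Set (Fin n → ℂ)} (hΩ : IsOpen Ω) (hΩR : RotInv Ω)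
    (hne : (Ω ∩ nz n).Nonempty) {K : bergman Ω →L[ℂ] L2 Ω}
    (hK : ∃ (ι : Type) (e : HilbertBasis ι ℂ (bergman Ω)), Summable fun i => ‖K (e i)‖ ^ 2) :
    ∑' β, av hΩ K β < ⊤ := by
  classical
  obtain ⟨ι, e, he⟩ := hK
  have h1 := hs_le e K (vb_orthonormal hΩ hΩR hne)
  have h2 : ∑' i, ENNReal.ofReal (‖K (e i)‖ ^ 2) < ⊤ := by
    rw [← ENNReal.ofReal_tsum_of_nonneg (fun _ => by positivity) he]
    exact ENNReal.ofReal_lt_top
  refine lt_of_le_of_lt ?_ h2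
  refine le_trans (le_of_eq ?_) h1
  have h3 : Function.support (av hΩ K) ⊆ {β | mass Ω β < ⊤} := by
    intro β hβ
    by_contra h
    apply hβ
    have h' : ¬ mass Ω β < ⊤ := h
    unfold av
    rw [dif_neg h']
  rw [← tsum_subtype_eq_of_support_subset h3]
  apply tsum_congr
  rintro ⟨β, hβ⟩
  have hβ' : mass Ω β < ⊤ := hβ
  simp only [av]
  rw [dif_pos hβ']
  unfold vb
  have h4 := norm_mb hΩ hβ'
  have h5 : 0 < ‖mb hΩ hβ'‖ := by
    have h3 := mass_pos hΩ hne β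
    rw [← h4] at h3
    have h4 := ENNReal.ofReal_pos.mp h3
    by_contra h
    have h5 : ‖mb hΩ hβ'‖ = 0 := le_antisymm (not_lt.mp h) (norm_nonneg _)
    rw [h5] at h4
    norm_num at h4
  have h6 : ENNReal.ofReal (‖K (mb hΩ hβ')‖ ^ 2) / mass Ω β =
      ENNReal.ofReal (‖K (mb hΩ hβ')‖ ^ 2 / ‖mb hΩ hβ'‖ ^ 2) := by
    rw [ENNReal.ofReal_div_of_pos (by positivity), h4]
  rw [h6, map_smul, norm_smul, norm_inv, Complex.norm_real, norm_norm, mul_pow, inv_pow]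
  congr 1
  field_simp

end Q71.RH
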