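import Mathlib
import Pool.Agent.Q71.RH.Ortho

open MeasureTheory Set Filter Topology Complex ComplexConjugate

namespace Q71.RH

variable {n : ℕ}

/-- real sequences: upward growth -/
lemma growth_up {x : ℕ → ℝ} {m r ρ : ℝ} (hm : 0 < m) (hr : 0 < r) (hrρ : r < ρ)
    (h1 : ∀ k, x (k + 1) ≤ r * x k) (h2 : ∀ k, ρ ^ k * m ≤ x k) : False := by
  have h3 : ∀ k, x k ≤ r ^ k * x 0 := by
    intro k
    induction k with
    | zero => simp
    | succ k ih =>
      calc x (k + 1) ≤ r * x k := h1 k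
        _ ≤ r * (r ^ k * x 0) := by gcongr
        _ = r ^ (k + 1) * x 0 := by ring
  have h4 : 1 < ρ / r := by rwa [one_lt_div hr]
  have h5 := tendsto_pow_atTop_atTop_of_one_lt h4
  obtain ⟨k, hk⟩ := (h5.eventually_gt_atTop (x 0 / m)).exists
  have h6 := (h2 k).trans (h3 k)
  have h7 : (ρ / r) ^ k * m ≤ x 0 := by
    rw [div_pow, div_mul_eq_mul_div, div_le_iff₀ (by positivity)]
    linarith
  rw [div_lt_iff₀ hm] at hk
  linarith

/-- lower bound for the mass of shifted monomials on a set where the monomial is large or small -/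
lemma mass_lower {W : Set (Fin n → ℂ)} (hW : MeasurableSet W) (hWnz : W ⊆ nz n)
    {γ α : Fin n → ℤ} {ρ : ℝ} (hρ : ∀ z ∈ W, ρ ≤ ‖mono α z‖ ^ 2) :
    ENNReal.ofReal ρ * mass W γ ≤ mass W (γ + α) := by
  unfold mass
  rw [← lintegral_const_mul _ (((measurable_mono γ).enorm).pow_const 2)]
  apply setLIntegral_mono' hW
  intro z hz
  rw [mono_add γ α (hWnz hz), enorm_mul, mul_pow, mul_comm]
  gcongr
  rw [← ofReal_norm, ← ENNReal.ofReal_pow (norm_nonneg _)]
  exact ENNReal.ofReal_le_ofReal (hρ z hz)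

lemma mass_mono {W Ω : Set (Fin n → ℂ)} (h : W ⊆ Ω) (γ : Fin n → ℤ) : mass W γ ≤ mass Ω γ :=
  lintegral_mono_set h

/-- ratio of consecutive masses -/
noncomputable def sr (Ω : Set (Fin n → ℂ)) (α γ : Fin n → ℤ) : ENNReal :=
  mass Ω (γ + α) / mass Ω γ

lemma up_exists {Ω W : Set (Fin n → ℂ)} {α β : Fin n → ℤ} (hW : IsOpen W) (hWΩ : W ⊆ Ω ∩ nz n)
    (hWne : W.Nonempty) {r ρ : ℝ} (hr : 0 < r) (hrρ : r < ρ)
    (hρ : ∀ z ∈ W, ρ ≤ ‖mono α z‖ ^ 2)
    (hfin : ∀ k : ℕ, mass Ω (β + (k : ℤ) • α) < ⊤) :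
    ∃ k : ℕ, ENNReal.ofReal r < sr Ω α (β + (k : ℤ) • α) := by
  by_contra hno
  push Not at hno
  have hWnz : W ⊆ nz n := fun z hz => (hWΩ hz).2
  have hWm := hW.measurableSet
  have hpos : ∀ γ, 0 < mass W γ := fun γ => mass_pos hW (by
    obtain ⟨z, hz⟩ := hWne
    exact ⟨z, hz, hWnz hz⟩) γ
  have hWle : ∀ γ, mass W γ ≤ mass Ω γ := fun γ => mass_mono (fun z hz => (hWΩ hz).1) γ
  have hlow : ∀ k : ℕ, ENNReal.ofReal ρ ^ k * mass W β ≤ mass W (β + (k : ℤ) • α) := by
    intro k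
    induction k with
    | zero => simp
    | succ k ih =>
      have h1 := mass_lower hWm hWnz (γ := β + (k : ℤ) • α) hρ
      have h2 : β + (k : ℤ) • α + α = β + ((k + 1 : ℕ) : ℤ) • α := by
        push_cast
        rw [add_smul, one_smul, add_assoc]
      rw [h2] at h1
      refine le_trans ?_ h1
      rw [pow_succ, mul_comm (ENNReal.ofReal ρ ^ k), mul_assoc]
      gcongr
  have hfinW : mass W β < ⊤ := (hWle β).trans_lt (by simpa using hfin 0)
  apply growth_up (x := fun k : ℕ => (mass Ω (β + (k : ℤ) • α)).toReal) (m := (mass W β).toReal)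
    (ENNReal.toReal_pos (hpos β).ne' hfinW.ne) hr hrρ
  · intro k
    have h1 := hno k
    unfold sr at h1
    have h2 : β + (k : ℤ) • α + α = β + ((k + 1 : ℕ) : ℤ) • α := by
      push_cast
      rw [add_smul, one_smul, add_assoc]
    rw [h2, ENNReal.div_le_iff (lt_of_lt_of_le (hpos _) (hWle _)).ne' (hfin k).ne] at h1
    have h3 := ENNReal.toReal_mono (ENNReal.mul_ne_top ENNReal.ofReal_ne_top (hfin k).ne) h1
    rwa [ENNReal.toReal_mul, ENNReal.toReal_ofReal hr.le] at h3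
  · intro k
    have h1 := (hlow k).trans (hWle _)
    have h3 := ENNReal.toReal_mono (hfin k).ne h1
    rwa [ENNReal.toReal_mul, ENNReal.toReal_pow, ENNReal.toReal_ofReal (by linarith)] at h3

lemma down_exists {Ω W : Set (Fin n → ℂ)} {α β : Fin n → ℤ} (hW : IsOpen W) (hWΩ : W ⊆ Ω ∩ nz n)
    (hWne : W.Nonempty) {r ρ : ℝ} (hρ0 : 0 < ρ) (hrρ : ρ < r)
    (hρ : ∀ z ∈ W, ‖mono α z‖ ^ 2 ≤ ρ) (hβ : mass Ω β < ⊤) :
    ∃ k : ℕ, sr Ω α (β + (-(k + 1 : ℤ)) • α) < ENNReal.ofReal r := by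
  by_contra hno
  push Not at hno
  have hr : 0 < r := hρ0.trans hrρ
  have hWnz : W ⊆ nz n := fun z hz => (hWΩ hz).2
  have hWm := hW.measurableSet
  have hpos : ∀ γ, 0 < mass W γ := fun γ => mass_pos hW (by
    obtain ⟨z, hz⟩ := hWne
    exact ⟨z, hz, hWnz hz⟩) γ
  have hWle : ∀ γ, mass W γ ≤ mass Ω γ := fun γ => mass_mono (fun z hz => (hWΩ hz).1) γ
  have hsucc : ∀ k : ℕ, β + (-((k : ℤ) + 1)) • α + α = β + (-(k : ℤ)) • α := by
    intro k
    rw [neg_add, add_smul, neg_one_smul]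
    abel
  have hρ' : ∀ z ∈ W, ρ⁻¹ ≤ ‖mono (-α) z‖ ^ 2 := by
    intro z hz
    rw [mono_neg, norm_inv, inv_pow]
    have h1 : 0 < ‖mono α z‖ ^ 2 := by
      have := norm_pos_iff.mpr (mono_ne_zero α (hWnz hz))
      positivity
    exact inv_anti₀ h1 (hρ z hz)
  have hlow : ∀ k : ℕ, ENNReal.ofReal ρ⁻¹ ^ k * mass W β ≤ mass W (β + (-(k : ℤ)) • α) := by
    intro k
    induction k with
    | zero => simp
    | succ k ih =>
      have h1 := mass_lower hWm hWnz (γ := β + (-(k : ℤ)) • α) hρ'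
      have h2 : β + (-(k : ℤ)) • α + -α = β + (-((k + 1 : ℕ) : ℤ)) • α := by
        push_cast
        rw [neg_add, add_smul, neg_one_smul, add_assoc]
      rw [h2] at h1
      refine le_trans ?_ h1
      rw [pow_succ, mul_comm (ENNReal.ofReal ρ⁻¹ ^ k), mul_assoc]
      gcongr
  have hfinW : mass W β < ⊤ := (hWle β).trans_lt hβ
  -- finiteness downwards
  have hstep : ∀ k : ℕ, mass Ω (β + (-((k : ℤ) + 1)) • α) < ⊤ := by
    intro k
    by_contra h
    have h1 : mass Ω (β + (-((k : ℤ) + 1)) • α) = ⊤ := by simpa using h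
    have h2 := hno k
    unfold sr at h2
    rw [h1, ENNReal.div_top] at h2
    have := ENNReal.ofReal_pos.mpr hr
    exact absurd h2 (not_le.mpr this)
  have hfin : ∀ k : ℕ, mass Ω (β + (-(k : ℤ)) • α) < ⊤ := by
    intro k
    cases k with
    | zero => simpa using hβ
    | succ k =>
      have := hstep k
      push_cast
      exact this
  apply growth_up (x := fun k : ℕ => (mass Ω (β + (-(k : ℤ)) • α)).toReal)
    (m := (mass W β).toReal) (r := r⁻¹) (ρ := ρ⁻¹)
    (ENNReal.toReal_pos (hpos β).ne' hfinW.ne) (by positivity) (inv_strictAnti₀ hρ0 hrρ)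
  · intro k
    have h1 := hno k
    unfold sr at h1
    rw [hsucc k, ENNReal.le_div_iff_mul_le (Or.inl (lt_of_lt_of_le (hpos _) (hWle _)).ne')
      (Or.inl (hstep k).ne)] at h1
    have h3 := ENNReal.toReal_mono (hfin k).ne h1
    rw [ENNReal.toReal_mul, ENNReal.toReal_ofReal hr.le] at h3
    show (mass Ω (β + (-((k + 1 : ℕ) : ℤ)) • α)).toReal ≤
      r⁻¹ * (mass Ω (β + (-(k : ℤ)) • α)).toReal
    push_cast
    rw [← div_eq_inv_mul, le_div_iff₀ hr]
    linarith
  · intro k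
    have h1 := (hlow k).trans (hWle _)
    have h3 := ENNReal.toReal_mono (hfin k).ne h1
    rwa [ENNReal.toReal_mul, ENNReal.toReal_pow, ENNReal.toReal_ofReal (by positivity)] at h3

lemma telescope {S a : ℤ → ENNReal} {C : ENNReal} (h : ∀ k, C * S (k + 1) ≤ a (k + 1) + C * S k)
    (N : ℤ) (m : ℕ) : C * S (N + m) ≤ (∑' k, a k) + C * S N := by
  have h1 : C * S (N + m) ≤ (∑ i ∈ Finset.range m, a (N + i + 1)) + C * S N := by
    induction m with
    | zero => simp
    | succ m ih =>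
      rw [Finset.sum_range_succ]
      have h2 := h (N + m)
      push_cast
      rw [← add_assoc N]
      refine h2.trans ?_
      calc a (N + m + 1) + C * S (N + m)
          ≤ a (N + m + 1) + ((∑ i ∈ Finset.range m, a (N + i + 1)) + C * S N) := by gcongr
        _ = _ := by ring
  refine h1.trans ?_
  gcongr
  have hinj : Function.Injective (fun i : ℕ => N + (i : ℤ) + 1) := by
    intro i j hij
    simp only at hij
    omega
  calc ∑ i ∈ Finset.range m, a (N + i + 1) ≤ ∑' i : ℕ, a (N + i + 1) := ENNReal.sum_le_tsum _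
    _ ≤ ∑' k, a k := ENNReal.tsum_comp_le_tsum_of_injective hinj a

lemma exists_two {Ω : Set (Fin n → ℂ)} (hΩ : IsOpen Ω) (hne : (Ω ∩ nz n).Nonempty)
    {α : Fin n → ℤ} (hα : α ≠ 0) :
    ∃ a ∈ Ω ∩ nz n, ∃ b ∈ Ω ∩ nz n, ‖mono α a‖ ^ 2 < ‖mono α b‖ ^ 2 := by
  obtain ⟨z, hz⟩ := hne
  obtain ⟨j, hj⟩ := Function.ne_iff.mp hα
  simp only [Pi.zero_apply, ne_eq] at hj
  obtain ⟨ε, hε, hb⟩ := Metric.isOpen_iff.mp (hΩ.inter isOpen_nz) z hz
  have hzj : 0 < ‖z j‖ := norm_pos_iff.mpr (hz.2 j)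
  set t : ℝ := ε / (2 * ‖z j‖) with ht
  have ht0 : 0 < t := by positivity
  set w : Fin n → ℂ := Function.update z j (((1 + t : ℝ) : ℂ) * z j) with hw
  have hwb : w ∈ Ω ∩ nz n := by
    apply hb
    rw [Metric.mem_ball, dist_pi_lt_iff hε]
    intro i
    by_cases hi : i = j
    · subst hi
      rw [hw, Function.update_self, dist_eq_norm]
      have : ((1 + t : ℝ) : ℂ) * z i - z i = ((t : ℝ) : ℂ) * z i := by
        push_cast
        ring
      rw [this, norm_mul, Complex.norm_real, Real.norm_eq_abs, abs_of_pos ht0, ht]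
      field_simp
      linarith
    · rw [hw, Function.update_of_ne hi, dist_self]
      exact hε
  have hmw : ‖mono α w‖ ^ 2 = ((1 + t) ^ (α j)) ^ 2 * ‖mono α z‖ ^ 2 := by
    rw [← mul_pow]
    congr 1
    rw [enorm_mono, enorm_mono, ← Finset.mul_prod_erase _ _ (Finset.mem_univ j),
      ← Finset.mul_prod_erase _ _ (Finset.mem_univ j), ← mul_assoc]
    congr 1
    · rw [hw, Function.update_self, norm_mul, Complex.norm_real, Real.norm_eq_abs,
        abs_of_pos (by linarith), mul_zpow]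
    · apply Finset.prod_congr rfl
      intro i hi
      rw [hw, Function.update_of_ne (Finset.ne_of_mem_erase hi)]
  have hmz : 0 < ‖mono α z‖ ^ 2 := by
    have := norm_pos_iff.mpr (mono_ne_zero α hz.2)
    positivity
  have h1t : 1 < 1 + t := by linarith
  rcases lt_or_gt_of_ne hj with h | h
  · refine ⟨w, hwb, z, hz, ?_⟩
    rw [hmw]
    have h2 : (1 + t) ^ (α j) < 1 := zpow_lt_one_of_neg₀ h1t h
    have h3 : 0 < (1 + t) ^ (α j) := by positivity
    have h4 : ((1 + t) ^ (α j)) ^ 2 < 1 := by nlinarith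
    exact mul_lt_of_lt_one_left hmz h4
  · refine ⟨z, hz, w, hwb, ?_⟩
    rw [hmw]
    have h2 : 1 < (1 + t) ^ (α j) := one_lt_zpow₀ h1t h
    have h4 : 1 < ((1 + t) ^ (α j)) ^ 2 := by nlinarith
    exact lt_mul_of_one_lt_left hmz h4

/-- All nonconstant Laurent coefficients vanish. -/
theorem coeff_zero (hn : 2 ≤ n) {Ω : Set (Fin n → ℂ)} (hΩ : IsOpen Ω) (hΩR : RotInv Ω)
    (hΩc : IsPreconnected Ω) (hne : (Ω ∩ nz n).Nonempty) (hbd : ∀ β : Fin n → ℕ,
      mass Ω (fun j => (β j : ℤ)) < ⊤)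
    {f : (Fin n → ℂ) → ℂ} (hf : DifferentiableOn ℂ f Ω) {K : bergman Ω →L[ℂ] L2 Ω}
    (hK : IsHilbertSchmidtHankel Ω f K)
    {α : Fin n → ℤ} (hα : α ≠ 0) {cα : ℂ}
    (hcα : ∀ z ∈ Ω ∩ nz n, ∫ θ : UnitAddTorus (Fin n), UnitAddTorus.mFourier (-α) θ * f (rot θ z)
      ∂(Measure.pi fun _ => AddCircle.haarAddCircle) = cα * mono α z) : cα = 0 := by
  by_contra hc0
  have hd := hK.dense_domain
  have hv := hK.value
  set C : ENNReal := ENNReal.ofReal (‖cα‖ ^ 2) with hC
  have hCpos : 0 < C := ENNReal.ofReal_pos.mpr (by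
    have := norm_pos_iff.mpr hc0
    positivity)
  have hCtop : C ≠ ⊤ := ENNReal.ofReal_ne_top
  have hpos : ∀ γ, 0 < mass Ω γ := fun γ => mass_pos hΩ hne γ
  have hlim : ∀ δ : Fin n → ℤ, ∀ h : mass Ω (δ + α) < ⊤, C * mass Ω (δ + α + α) ≤
      ENNReal.ofReal (‖K (mb hΩ h)‖ ^ 2) + C * (mass Ω (δ + α) ^ 2 / mass Ω δ) := fun δ h =>
    limit_ineq (by omega) hΩ hΩR hΩc hne hf hd hv hcα h
  -- finiteness upwards
  have hup : ∀ β : Fin n → ℤ, mass Ω β < ⊤ → mass Ω (β + α) < ⊤ := by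
    intro β hβ
    have hβ' : mass Ω (β - α + α) < ⊤ := by rwa [sub_add_cancel]
    have h1 := hlim (β - α) hβ'
    have h2 : mass Ω (β - α + α) ^ 2 / mass Ω (β - α) < ⊤ :=
      ENNReal.div_lt_top (ENNReal.pow_lt_top hβ').ne (hpos _).ne'
    have h3 : C * mass Ω (β - α + α + α) < ⊤ :=
      h1.trans_lt (ENNReal.add_lt_top.mpr ⟨ENNReal.ofReal_lt_top,
        ENNReal.mul_lt_top hCtop.lt_top h2⟩)
    rw [sub_add_cancel] at h3
    by_contra h4
    have h5 : mass Ω (β + α) = ⊤ := by simpa using h4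
    rw [h5, ENNReal.mul_top hCpos.ne'] at h3
    exact lt_irrefl _ h3
  have hup' : ∀ β : Fin n → ℤ, mass Ω β < ⊤ → ∀ k : ℕ, mass Ω (β + (k : ℤ) • α) < ⊤ := by
    intro β hβ k
    induction k with
    | zero => simpa using hβ
    | succ k ih =>
      have h2 : β + ((k + 1 : ℕ) : ℤ) • α = β + (k : ℤ) • α + α := by
        push_cast
        rw [add_smul, one_smul, add_assoc]
      rw [h2]
      exact hup _ ih
  -- the recursive inequality
  have hrec : ∀ δ : Fin n → ℤ, C * sr Ω α (δ + α) ≤ av hΩ K (δ + α) + C * sr Ω α δ := by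
    intro δ
    by_cases h : mass Ω (δ + α) < ⊤
    · have h1 := hlim δ h
      set x := mass Ω (δ + α) with hx
      have hx0 : x ≠ 0 := (hpos _).ne'
      unfold sr av
      rw [dif_pos h, ← hx, ← mul_div_assoc]
      have h2 := ENNReal.div_le_div_right h1 x
      refine h2.trans ?_
      rw [ENNReal.add_div]
      gcongr
      rw [mul_div_assoc]
      apply le_of_eq
      congr 1
      rw [pow_two, mul_div_assoc, mul_comm, ENNReal.mul_div_cancel_right hx0 h.ne]
    · have h1 : mass Ω (δ + α) = ⊤ := by simpa using h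
      unfold sr
      rw [h1, ENNReal.div_top, mul_zero]
      exact bot_le
  -- two open sets
  obtain ⟨a, ha, b, hb, hab⟩ := exists_two hΩ hne hα
  set d := ‖mono α b‖ ^ 2 - ‖mono α a‖ ^ 2 with hd'
  have hd0 : 0 < d := by linarith
  set τa := ‖mono α a‖ ^ 2 with hτa
  have hτa0 : 0 ≤ τa := by positivity
  have hcont : ContinuousOn (fun z => ‖mono α z‖ ^ 2) (Ω ∩ nz n) :=
    ((cont_mono α).mono inter_subset_right).norm.pow 2
  have hUo : IsOpen (Ω ∩ nz n) := hΩ.inter isOpen_nz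
  set Whi : Set (Fin n → ℂ) := (Ω ∩ nz n) ∩ (fun z => ‖mono α z‖ ^ 2) ⁻¹' Ioi (τa + 4 * d / 5) with hWhi
  set Wlo : Set (Fin n → ℂ) := (Ω ∩ nz n) ∩ (fun z => ‖mono α z‖ ^ 2) ⁻¹' Iio (τa + d / 5) with hWlo
  have hWhio : IsOpen Whi := hcont.isOpen_inter_preimage hUo isOpen_Ioi
  have hWloo : IsOpen Wlo := hcont.isOpen_inter_preimage hUo isOpen_Iio
  have hWhine : Whi.Nonempty := ⟨b, hb, by
    show τa + 4 * d / 5 < ‖mono α b‖ ^ 2
    linarith⟩
  have hWlone : Wlo.Nonempty := ⟨a, ha, by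
    show ‖mono α a‖ ^ 2 < τa + d / 5
    linarith⟩
  -- each line contributes
  have hline : ∀ β : Fin n → ℤ, mass Ω β < ⊤ →
      C * ENNReal.ofReal (d / 5) ≤ ∑' k : ℤ, av hΩ K (β + k • α) := by
    intro β hβ
    obtain ⟨M, hM⟩ := up_exists (β := β) hWhio inter_subset_left hWhine (r := τa + 3 * d / 5)
      (ρ := τa + 4 * d / 5) (by positivity) (by linarith) (fun z hz => le_of_lt hz.2) (hup' β hβ)
    obtain ⟨N, hN⟩ := down_exists (β := β) hWloo inter_subset_left hWlone (r := τa + 2 * d / 5)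
      (ρ := τa + d / 5) (by positivity) (by linarith) (fun z hz => le_of_lt hz.2) hβ
    have htel := telescope (S := fun k : ℤ => sr Ω α (β + k • α))
      (a := fun k : ℤ => av hΩ K (β + k • α)) (C := C) (fun k => by
        have h1 := hrec (β + k • α)
        have h2 : β + k • α + α = β + (k + 1) • α := by
          rw [add_smul, one_smul, add_assoc]
        rwa [h2] at h1) (-(N + 1 : ℤ)) (N + 1 + M)
    have h3 : (-(N + 1 : ℤ)) + ((N + 1 + M : ℕ) : ℤ) = (M : ℤ) := by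
      push_cast
      ring
    rw [h3] at htel
    by_contra hlt
    push Not at hlt
    set T := ∑' k : ℤ, av hΩ K (β + k • α) with hT
    have h4 : C * sr Ω α (β + (M : ℤ) • α) ≤ T + C * ENNReal.ofReal (τa + 2 * d / 5) := by
      refine htel.trans ?_
      gcongr
    have h5 : T + C * ENNReal.ofReal (τa + 2 * d / 5) <
        C * ENNReal.ofReal (d / 5) + C * ENNReal.ofReal (τa + 2 * d / 5) :=
      ENNReal.add_lt_add_right (ENNReal.mul_ne_top hCtop ENNReal.ofReal_ne_top) hlt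
    rw [← mul_add, ← ENNReal.ofReal_add (by positivity) (by positivity)] at h5
    have h6 : d / 5 + (τa + 2 * d / 5) = τa + 3 * d / 5 := by ring
    rw [h6] at h5
    have h7 : C * ENNReal.ofReal (τa + 3 * d / 5) ≤ C * sr Ω α (β + (M : ℤ) • α) := by
      gcongr
    exact absurd (h7.trans h4) (not_le.mpr h5)
  -- infinitely many lines
  obtain ⟨j, hj⟩ := Function.ne_iff.mp hα
  simp only [Pi.zero_apply, ne_eq] at hj
  obtain ⟨i, hij⟩ : ∃ i : Fin n, i ≠ j := by
    by_cases h : j = ⟨0, by omega⟩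
    · exact ⟨⟨1, by omega⟩, by
        rw [h]
        simp⟩
    · exact ⟨⟨0, by omega⟩, fun h' => h h'.symm⟩
  have hinj : Function.Injective (fun p : ℕ × ℤ =>
      (fun l : Fin n => ((if l = i then p.1 else 0 : ℕ) : ℤ)) + p.2 • α) := by
    rintro ⟨m, k⟩ ⟨m', k'⟩ h
    have h1 := congrFun h j
    simp only [Pi.add_apply, Pi.smul_apply, if_neg (Ne.symm hij), smul_eq_mul, Nat.cast_zero,
      zero_add] at h1
    have h2 : k = k' := mul_right_cancel₀ hj h1
    subst h2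
    have h3 := congrFun h i
    simp only [Pi.add_apply, if_pos, add_left_inj, Nat.cast_inj] at h3
    rw [h3]
  have hsum := av_sum hΩ hΩR hne hK.summable
  have h1 : ∑' p : ℕ × ℤ, av hΩ K ((fun l : Fin n => ((if l = i then p.1 else 0 : ℕ) : ℤ)) + p.2 • α)
      < ⊤ := (ENNReal.tsum_comp_le_tsum_of_injective hinj (av hΩ K)).trans_lt hsum
  rw [ENNReal.tsum_prod'] at h1
  have h2 : ∑' _ : ℕ, C * ENNReal.ofReal (d / 5) ≤ ∑' m : ℕ, ∑' k : ℤ,
      av hΩ K ((fun l : Fin n => ((if l = i then m else 0 : ℕ) : ℤ)) + k • α) := by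
    apply ENNReal.tsum_le_tsum
    intro m
    exact hline _ (hbd fun l => if l = i then m else 0)
  rw [ENNReal.tsum_const_eq_top_of_ne_zero
    (mul_ne_zero hCpos.ne' (ENNReal.ofReal_pos.mpr (by positivity)).ne')] at h2
  exact absurd (h2.trans_lt h1) (lt_irrefl _)

end Q71.RH
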