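import Mathlib
import Pool.Agent.Q71.RH.Final

open MeasureTheory Set Filter Topology Complex ComplexConjugate

namespace Q71.RH

variable {n : ℕ}

lemma mass_nat {Ω : Set (Fin n → ℂ)} (hb : Bornology.IsBounded Ω) (β : Fin n → ℕ) :
    mass Ω (fun j => (β j : ℤ)) < ⊤ := by
  have hcl : IsCompact (closure Ω) := hb.isCompact_closure
  have hcont : Continuous (mono (fun j => (β j : ℤ)) : (Fin n → ℂ) → ℂ) := by
    unfold mono
    simp only [zpow_natCast]
    fun_prop
  obtain ⟨M, hM⟩ := hcl.exists_bound_of_continuousOn hcont.continuousOn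
  unfold mass
  calc ∫⁻ z in Ω, ‖mono (fun j => (β j : ℤ)) z‖ₑ ^ 2
      ≤ ∫⁻ z in closure Ω, ‖mono (fun j => (β j : ℤ)) z‖ₑ ^ 2 := lintegral_mono_set subset_closure
    _ ≤ ∫⁻ _ in closure Ω, ENNReal.ofReal M ^ 2 := by
        apply setLIntegral_mono' isClosed_closure.measurableSet
        intro z hz
        rw [← ofReal_norm]
        gcongr
        exact hM z hz
    _ = ENNReal.ofReal M ^ 2 * volume (closure Ω) := by rw [setLIntegral_const]
    _ < ⊤ := ENNReal.mul_lt_top (ENNReal.pow_lt_top ENNReal.ofReal_lt_top) hcl.measure_lt_top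

/-- If all nonconstant Laurent coefficients vanish, the function is constant. -/
lemma const_of_coeff {Ω : Set (Fin n → ℂ)} (hΩR : RotInv Ω)
    {f : (Fin n → ℂ) → ℂ} (hf : ContinuousOn f Ω) {z : Fin n → ℂ} (hz : z ∈ Ω)
    (h : ∀ γ : Fin n → ℤ, γ ≠ 0 → ∫ θ : UnitAddTorus (Fin n),
      UnitAddTorus.mFourier (-γ) θ * f (rot θ z)
        ∂(Measure.pi fun _ => AddCircle.haarAddCircle) = 0) :
    f z = ∫ θ : UnitAddTorus (Fin n), f (rot θ z)
        ∂(Measure.pi fun _ => AddCircle.haarAddCircle) := by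
  classical
  let g : C(UnitAddTorus (Fin n), ℂ) := ⟨fun θ => f (rot θ z), by
    rw [← continuousOn_univ]
    exact hf.comp (continuous_rot.comp (continuous_id.prodMk continuous_const)).continuousOn
      (fun θ _ => hΩR z hz θ)⟩
  have hg : ∀ γ : Fin n → ℤ, UnitAddTorus.mFourierCoeff g γ = ∫ θ : UnitAddTorus (Fin n),
      UnitAddTorus.mFourier (-γ) θ * f (rot θ z)
        ∂(Measure.pi fun _ => AddCircle.haarAddCircle) := fun γ => rfl
  have hz0 : ∀ γ : Fin n → ℤ, γ ≠ 0 → UnitAddTorus.mFourierCoeff g γ = 0 := fun γ hγ => by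
    rw [hg, h γ hγ]
  have hs : Summable (UnitAddTorus.mFourierCoeff g) :=
    summable_of_ne_finset_zero (s := {0}) fun γ hγ => hz0 γ (by simpa using hγ)
  have h1 := UnitAddTorus.hasSum_mFourier_series_apply_of_summable hs 0
  have h2 : HasSum (fun i => UnitAddTorus.mFourierCoeff g i •
      (UnitAddTorus.mFourier i (0 : UnitAddTorus (Fin n)) : ℂ))
      (UnitAddTorus.mFourierCoeff g 0 • (UnitAddTorus.mFourier 0 (0 : UnitAddTorus (Fin n)) : ℂ)) :=
    hasSum_single 0 fun γ hγ => by rw [hz0 γ hγ, zero_smul]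
  have h3 := h1.unique h2
  have h4 : g 0 = f z := by
    show f (rot 0 z) = f z
    rw [rot_zero]
  rw [← h4, h3, hg]
  simp [UnitAddTorus.mFourier_zero]

theorem main (hn : 2 ≤ n) {Ω : Set (Fin n → ℂ)} (hΩ : IsOpen Ω) (hΩc : IsConnected Ω)
    (hb : Bornology.IsBounded Ω) (hR : IsReinhardt Ω)
    {f : (Fin n → ℂ) → ℂ} (hf : DifferentiableOn ℂ f Ω) {K : bergman Ω →L[ℂ] L2 Ω}
    (hK : IsHilbertSchmidtHankel Ω f K) : K = 0 := by
  have hΩR := rotInv_of_isReinhardt hR
  have hne : (Ω ∩ nz n).Nonempty := by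
    obtain ⟨p, hp⟩ := hΩc.nonempty
    obtain ⟨ε, hε, hball⟩ := Metric.isOpen_iff.mp hΩ p hp
    obtain ⟨w, hw1, hw2⟩ := exists_nz p hε
    exact ⟨w, hball hw1, hw2⟩
  obtain ⟨c0, hc0⟩ := laurent hΩ hΩR hΩc.isPreconnected hf (0 : Fin n → ℤ)
  have hfc : ∀ z ∈ Ω ∩ nz n, f z = c0 := by
    intro z hz
    rw [const_of_coeff hΩR hf.continuousOn hz.1]
    · have h1 := hc0 z hz
      rw [mono_zero, mul_one] at h1
      rw [← h1]
      apply integral_congr_ae
      filter_upwards with θ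
      simp [UnitAddTorus.mFourier_zero]
    · intro γ hγ
      obtain ⟨c, hc⟩ := laurent hΩ hΩR hΩc.isPreconnected hf γ
      have h1 := coeff_zero hn hΩ hΩR hΩc.isPreconnected hne (mass_nat hb) hf hK hγ hc
      have h2 := hc z hz
      rw [h1, zero_mul] at h2
      exact h2
  have hae : ∀ᵐ z ∂(volume.restrict Ω), f z = c0 := by
    have h : ∀ᵐ z : Fin n → ℂ, z ∈ nz n := by
      have h1 : ∀ j : Fin n, ∀ᵐ z : Fin n → ℂ, z j ≠ 0 := by
        intro j
        rw [ae_iff]
        simp only [ne_eq, not_not]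
        exact Measure.pi_hyperplane (fun _ : Fin n => (volume : Measure ℂ)) j 0
      exact ae_all_iff.mpr h1
    filter_upwards [ae_restrict_mem hΩ.measurableSet, ae_restrict_of_ae h] with z h1 h2
    exact hfc z ⟨h1, h2⟩
  have hdom : ∀ g ∈ hankelDomain Ω f, K g = 0 := by
    intro g hg
    obtain ⟨u, hu1, hu2, hu3⟩ := hK.value g hg
    have h1 : u = conj c0 • (g : L2 Ω) := by
      apply Lp.ext
      filter_upwards [hu1, hae, Lp.coeFn_smul (conj c0) (g : L2 Ω)] with z h1 h2 h3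
      rw [h1, h2, h3]
      rfl
    have h2 : u ∈ bergman Ω := by
      rw [h1]
      exact Submodule.smul_mem _ _ g.2
    have h3 : K g ∈ bergman Ω := by
      have := Submodule.sub_mem _ h2 hu2
      rwa [sub_sub_cancel] at this
    have h4 := (Submodule.mem_orthogonal _ _).mp hu3 (K g) h3
    exact inner_self_eq_zero.mp h4
  have : (K : bergman Ω → L2 Ω) = (0 : bergman Ω →L[ℂ] L2 Ω) :=
    Continuous.ext_on hK.dense_domain K.continuous (ContinuousLinearMap.continuous _)
      (fun g hg => by simp [hdom g hg])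
  exact DFunLike.coe_injective this

end Q71.RH
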