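import Mathlib

/-!
# Reinhardt domains, Bergman spaces and Hankel operators with conjugate holomorphic symbols

Points of `ℂⁿ` are functions `Fin n → ℂ`.
-/

open MeasureTheory

namespace Q71.RHS

variable {n : ℕ}

/-- `Ω ⊆ ℂⁿ` is invariant under `(z₁, …, zₙ) ↦ (e^{iθ₁} z₁, …, e^{iθₙ} zₙ)` for all real `θⱼ`. -/
def IsReinhardt (Ω : Set (Fin n → ℂ)) : Prop :=
  ∀ z ∈ Ω, ∀ θ : Fin n → ℝ, (fun j => Complex.exp ((θ j : ℂ) * Complex.I) * z j) ∈ Ω

/-- Lebesgue measure on `Ω ⊆ ℂⁿ`. -/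
noncomputable def leb (Ω : Set (Fin n → ℂ)) : Measure (Fin n → ℂ) := volume.restrict Ω

/-- The Hilbert space `L²(Ω)`. -/
def L2 (Ω : Set (Fin n → ℂ)) : Type := Lp ℂ 2 (leb Ω)

noncomputable instance L2.group (Ω : Set (Fin n → ℂ)) : NormedAddCommGroup (L2 Ω) :=
  Lp.instNormedAddCommGroup

noncomputable instance L2.inner (Ω : Set (Fin n → ℂ)) : InnerProductSpace ℂ (L2 Ω) :=
  MeasureTheory.L2.innerProductSpace

/-- The class `u ∈ L²(Ω)` is the class of the function `g`. -/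
def IsClass {Ω : Set (Fin n → ℂ)} (u : L2 Ω) (g : (Fin n → ℂ) → ℂ) : Prop :=
  AEEqFun.cast (Subtype.val (p := fun x => x ∈ Lp ℂ 2 (leb Ω)) u) =ᵐ[leb Ω] g

/-- `u ∈ L²(Ω)` is the class of a function holomorphic on `Ω`. -/
def IsHolo {Ω : Set (Fin n → ℂ)} (u : L2 Ω) : Prop :=
  ∃ g : (Fin n → ℂ) → ℂ, DifferentiableOn ℂ g Ω ∧ IsClass u g

theorem IsHolo.add {Ω : Set (Fin n → ℂ)} {u v : L2 Ω} (hu : IsHolo u) (hv : IsHolo v) :
    IsHolo (u + v) := by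
  obtain ⟨g, hg, hu⟩ := hu
  obtain ⟨h, hh, hv⟩ := hv
  exact ⟨g + h, hg.add hh, (Lp.coeFn_add (E := ℂ) (p := 2) (μ := leb Ω) u v).trans
    (Filter.EventuallyEq.add hu hv)⟩

theorem IsHolo.zero {Ω : Set (Fin n → ℂ)} : IsHolo (0 : L2 Ω) :=
  ⟨0, differentiableOn_const 0, Lp.coeFn_zero ℂ 2 (leb Ω)⟩

theorem IsHolo.smul {Ω : Set (Fin n → ℂ)} (c : ℂ) {u : L2 Ω} (hu : IsHolo u) :
    IsHolo (c • u) := by
  obtain ⟨g, hg, hu⟩ := hu
  exact ⟨c • g, hg.const_smul c, (Lp.coeFn_smul (E := ℂ) (p := 2) (μ := leb Ω) c u).trans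
    (Filter.EventuallyEq.const_smul hu c)⟩

/-- The Bergman space `A²(Ω)` as a subspace of `L²(Ω)`. -/
def bergman (Ω : Set (Fin n → ℂ)) : Submodule ℂ (L2 Ω) where
  carrier := {u | IsHolo u}
  add_mem' := IsHolo.add
  zero_mem' := IsHolo.zero
  smul_mem' := IsHolo.smul

/-- The Bergman space `A²(Ω)` as an inner product space. -/
def A2 (Ω : Set (Fin n → ℂ)) : Type := bergman Ω

noncomputable instance A2.group (Ω : Set (Fin n → ℂ)) : NormedAddCommGroup (A2 Ω) :=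
  Submodule.normedAddCommGroup (bergman Ω)

noncomputable instance A2.inner (Ω : Set (Fin n → ℂ)) : InnerProductSpace ℂ (A2 Ω) :=
  Submodule.innerProductSpace (bergman Ω)

/-- The inclusion of `A²(Ω)` in `L²(Ω)`. -/
noncomputable def A2.incl {Ω : Set (Fin n → ℂ)} (g : A2 Ω) : L2 Ω := (bergman Ω).subtype g

/-- `u` is the class of the function `\bar f g`; in particular `\bar f g` lies in `L²(Ω)`. -/
def IsProduct {Ω : Set (Fin n → ℂ)} (f : (Fin n → ℂ) → ℂ) (g u : L2 Ω) : Prop :=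
  ∃ G : (Fin n → ℂ) → ℂ, IsClass g G ∧ IsClass u (fun z => (starRingEnd ℂ) (f z) * G z)

/-- The domain of the Hankel operator `H_{\bar f}`: all `g ∈ A²(Ω)` with `\bar f g ∈ L²(Ω)`. -/
def hankelDomain (Ω : Set (Fin n → ℂ)) (f : (Fin n → ℂ) → ℂ) : Set (A2 Ω) :=
  {g | ∃ u : L2 Ω, IsProduct f g.incl u}

/-- `w = H_{\bar f} g = (I - P)(\bar f g)`: with `u` the class of `\bar f g`, the difference
`u - w` lies in `A²(Ω)` and `w` is orthogonal to `A²(Ω)`. -/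
def IsHankelValue {Ω : Set (Fin n → ℂ)} (f : (Fin n → ℂ) → ℂ) (g w : L2 Ω) : Prop :=
  ∃ u : L2 Ω, IsProduct f g u ∧ IsHolo (u - w) ∧ ∀ a : L2 Ω, IsHolo a → inner ℂ a w = 0

/-- The Hankel operator `H_{\bar f}` is Hilbert-Schmidt, with extension `K : A²(Ω) → L²(Ω)`:
its domain is dense in `A²(Ω)`, `K` is a bounded linear operator which agrees with `H_{\bar f}` on
the domain, and `∑ ‖K eᵢ‖² < ∞` for some orthonormal (Hilbert) basis `(eᵢ)` of `A²(Ω)`. -/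
structure IsHilbertSchmidtHankel (Ω : Set (Fin n → ℂ)) (f : (Fin n → ℂ) → ℂ)
    (K : A2 Ω → L2 Ω) : Prop where
  dense_domain : Dense (hankelDomain Ω f)
  bounded_linear : IsBoundedLinearMap ℂ K
  value : ∀ g ∈ hankelDomain Ω f, IsHankelValue f g.incl (K g)
  summable : ∃ (ι : Type) (e : HilbertBasis ι ℂ (A2 Ω)), Summable fun i => ‖K (e i)‖ ^ 2

end Q71.RHS
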