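import Mathlib
import Pool.Agent.Q71.RH.Main
import Pool.Agent.Q71.RH.Statement

open MeasureTheory

namespace Q71.RHS

variable {n : ℕ}

theorem bridge (hn : 2 ≤ n) {Ω : Set (Fin n → ℂ)} (hΩ : IsOpen Ω) (hΩc : IsConnected Ω)
    (hb : Bornology.IsBounded Ω) (hR : IsReinhardt Ω)
    {f : (Fin n → ℂ) → ℂ} (hf : DifferentiableOn ℂ f Ω) {K : A2 Ω → L2 Ω}
    (hK : IsHilbertSchmidtHankel Ω f K) (g : A2 Ω) : K g = 0 := by
  have hdom : ∀ g : A2 Ω, g ∈ hankelDomain Ω f ↔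
      MemLp (fun z => (starRingEnd ℂ) (f z) * ((show Lp ℂ 2 (leb Ω) from g.incl) : (Fin n → ℂ) → ℂ) z) 2
        (leb Ω) := by
    intro g
    constructor
    · rintro ⟨u, G, hG1, hG2⟩
      have h1 : MemLp ((show Lp ℂ 2 (leb Ω) from u) : (Fin n → ℂ) → ℂ) 2 (leb Ω) := Lp.memLp _
      refine h1.ae_eq ?_
      unfold IsClass at hG1 hG2
      filter_upwards [hG1, hG2] with z h2 h3
      exact h3.trans (by rw [← h2])
    · intro h
      refine ⟨(h.toLp _ : Lp ℂ 2 (leb Ω)), _, Filter.EventuallyEq.rfl, h.coeFn_toLp⟩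
  let K' : Q71.RH.bergman Ω →L[ℂ] Q71.RH.L2 Ω := hK.bounded_linear.toContinuousLinearMap
  have key : Q71.RH.IsHilbertSchmidtHankel Ω f K' := by
    refine ⟨?_, ?_, hK.summable⟩
    · have h1 : Dense (hankelDomain Ω f) := hK.dense_domain
      refine h1.mono ?_
      intro g hg
      exact (hdom g).mp hg
    · intro g hg
      obtain ⟨u, ⟨G, hG1, hG2⟩, h2, h3⟩ := hK.value g ((hdom g).mpr hg)
      refine ⟨u, ?_, h2, ?_⟩
      · unfold IsClass at hG1 hG2
        filter_upwards [hG1, hG2] with z h4 h5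
        refine h5.trans ?_
        rw [← h4]
        rfl
      · rw [Submodule.mem_orthogonal]
        exact h3
  have h0 := Q71.RH.main hn hΩ hΩc hb hR hf key
  exact congrArg (fun T : Q71.RH.bergman Ω →L[ℂ] Q71.RH.L2 Ω => T g) h0

end Q71.RHS
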